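import Pool.Agent.X111.MO.Onl2
import Pool.Agent.Y496.UP.OUT

set_option autoImplicit false
set_option linter.unusedSectionVars false

/-! Moments of moments next to the line without truncation. -/

namespace Pool.Agent.X111.MO

open Finset MeasureTheory Filter Topology
open Pool.Agent.W184 (zn zn_nonneg zn_cont zn_le' zn_neg)
open Pool.Agent.X111.MS (ev_ll ofReal_int_le)
open Pool.Agent.Y755 (mom mom_eq)

noncomputable section

/-- the fourth moment next to the line, with shifts -/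
lemma four : ∃ lam C : ℝ, 1 ≤ lam ∧ 0 < C ∧ ∀ᶠ T : ℝ in atTop, ∀ δ : ℝ, lam / Real.log T ≤ δ → δ ≤ 1 / 16 → ∀ h : ℝ, |h| ≤ 1 →
    ∫⁻ t in Set.Ioc 0 T, ENNReal.ofReal (Zh δ h t ^ (4:ℝ)) ≤ ENNReal.ofReal (C * T * Real.log T ^ 4) := by
  obtain ⟨lam, hl, hup⟩ := Pool.Agent.Y496.UP.up_all (α := 2) (by norm_num) le_rfl
  obtain ⟨A, hA, hDD⟩ := Pool.Agent.Y496.UP.DD_path (α := 2) (lam := lam) (by norm_num) hl
  have h2 : Tendsto (fun T : ℝ => 2 * T) atTop atTop := tendsto_id.const_mul_atTop (by norm_num)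
  refine ⟨lam, 8 * A, hl, by linarith, ?_⟩
  filter_upwards [h2.eventually hup, hDD, eventually_gt_atTop 3] with T g1 g2 g3 δ hδ1 hδ2 h hh
  have hL : 0 < Real.log T := Real.log_pos (by linarith)
  have hT : 0 < T := by linarith
  have hL2 : Real.log T ≤ Real.log (2 * T) := Real.log_le_log hT (by linarith)
  have hl0 : 0 < lam := by linarith
  have hδp : 0 < δ := lt_of_lt_of_le (div_pos hl0 hL) hδ1
  have h5 := g1 δ ((div_le_div_of_nonneg_left hl0.le hL hL2).trans hδ1) hδ2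
  rw [mom_eq _ _ _ (by linarith : 0 < 2 * T), add_zero] at h5
  have h6 := (Pool.Agent.Y496.UP.DD_anti (α := 2) (by norm_num) (div_pos hl0 hL) hδ1).trans g2
  rw [inv_mul_eq_div, div_le_iff₀ (by linarith : 0 < 2 * T)] at h5
  have hc : Continuous fun t : ℝ => zn (1 / 2 + δ) t ^ ((2:ℝ) * 2) := (zn_cont (by linarith)).rpow_const fun _ => Or.inr (by norm_num)
  have hnn : ∀ t : ℝ, 0 ≤ zn (1 / 2 + δ) t ^ ((2:ℝ) * 2) := fun t => Real.rpow_nonneg (zn_nonneg _ _) _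
  obtain ⟨G, hG⟩ : ∃ G : ℝ → ENNReal, G = fun s => ENNReal.ofReal (zn (1 / 2 + δ) s ^ ((2:ℝ) * 2)) := ⟨_, rfl⟩
  have e1 : ∀ t : ℝ, ENNReal.ofReal (Zh δ h t ^ (4:ℝ)) = G (h + t) := by
    intro t
    rw [hG, Zh_zn, add_comm t h]
    norm_num
  have hpos : ∫⁻ s in Set.Ioc 0 (2 * T), G s = ENNReal.ofReal (∫ t in (0:ℝ)..(2 * T), zn (1 / 2 + δ) t ^ ((2:ℝ) * 2)) := by
    rw [hG, intervalIntegral.integral_of_le (by linarith), ofReal_integral_eq_lintegral_ofReal (hc.integrableOn_Icc.mono_set Set.Ioc_subset_Icc_self)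
      (Eventually.of_forall hnn)]
  have hneg : ∫⁻ s in Set.Ioc (-1) 0, G s ≤ ∫⁻ s in Set.Ioc 0 (2 * T), G s := by
    have a1 : ∫⁻ s in Set.Ioc (-1) 0, G s = ENNReal.ofReal (∫ t in (-1:ℝ)..0, zn (1 / 2 + δ) t ^ ((2:ℝ) * 2)) := by
      rw [hG, intervalIntegral.integral_of_le (by norm_num), ofReal_integral_eq_lintegral_ofReal (hc.integrableOn_Icc.mono_set Set.Ioc_subset_Icc_self)
        (Eventually.of_forall hnn)]
    rw [a1, hpos]
    refine ENNReal.ofReal_le_ofReal ?_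
    have a2 : ∫ t in (-1:ℝ)..0, zn (1 / 2 + δ) t ^ ((2:ℝ) * 2) = ∫ t in (0:ℝ)..1, zn (1 / 2 + δ) t ^ ((2:ℝ) * 2) := by
      have := intervalIntegral.integral_comp_neg (a := 0) (b := 1) (fun t => zn (1 / 2 + δ) t ^ ((2:ℝ) * 2))
      simp only [zn_neg, neg_zero] at this
      exact this.symm
    rw [a2]
    exact intervalIntegral.integral_mono_interval le_rfl (by norm_num) (by linarith) (Eventually.of_forall hnn) (hc.intervalIntegrable _ _)
  calc ∫⁻ t in Set.Ioc 0 T, ENNReal.ofReal (Zh δ h t ^ (4:ℝ)) = ∫⁻ t in Set.Ioc 0 T, G (h + t) := lintegral_congr e1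
    _ = ∫⁻ s in Set.Ioc (h + 0) (h + T), G s := Pool.Agent.X111.MS.tr_set G 0 T h
    _ ≤ ∫⁻ s in Set.Ioc (-1) 0 ∪ Set.Ioc 0 (2 * T), G s := by
        refine lintegral_mono_set ?_
        rw [Set.Ioc_union_Ioc_eq_Ioc (by norm_num) (by linarith)]
        exact Set.Ioc_subset_Ioc (by linarith [(abs_le.mp hh).1]) (by linarith [(abs_le.mp hh).2])
    _ ≤ (∫⁻ s in Set.Ioc (-1) 0, G s) + ∫⁻ s in Set.Ioc 0 (2 * T), G s := lintegral_union_le _ _ _
    _ ≤ (∫⁻ s in Set.Ioc 0 (2 * T), G s) + ∫⁻ s in Set.Ioc 0 (2 * T), G s := add_le_add hneg le_rfl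
    _ = ENNReal.ofReal (2 * ∫ t in (0:ℝ)..(2 * T), zn (1 / 2 + δ) t ^ ((2:ℝ) * 2)) := by
        rw [hpos, ← two_mul, ENNReal.ofReal_mul (by norm_num)]
        norm_num
    _ ≤ _ := by
        refine ENNReal.ofReal_le_ofReal ?_
        have e4 : Real.log T ^ ((2:ℝ) ^ 2) = Real.log T ^ 4 := by
          rw [← Real.rpow_natCast]
          norm_num
        rw [e4] at h6
        have h7 : 2 * Pool.Agent.Y755.DD 2 δ * (2 * T) ≤ 2 * (A * Real.log T ^ 4) * (2 * T) := by gcongr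
        linarith

/-- the powers -/
def fu (δ β : ℝ) (z : ℝ × ℝ) : ENNReal := ENNReal.ofReal (Zh δ z.2 z.1 ^ (2 * β))

lemma fu_meas2 (δ β : ℝ) : Measurable (fu δ β) := by
  unfold fu
  exact ((Zh_meas2 δ).pow_const _).ennreal_ofReal

lemma fu_meas (δ β t : ℝ) : Measurable fun h : ℝ => fu δ β (t, h) := by
  unfold fu
  exact ((Zh_measH δ t).pow_const _).ennreal_ofReal

/-- the good set -/
def Gd (δ V h : ℝ) : Set ℝ := {t | V⁻¹ < Zh δ h t ∧ Zh δ h t < V}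

lemma Gd_meas (δ V h : ℝ) : MeasurableSet (Gd δ V h) :=
  (measurableSet_lt measurable_const (Zh_meas δ h)).inter (measurableSet_lt (Zh_meas δ h) measurable_const)

/-- the large or small values -/
def bb (δ V β : ℝ) (z : ℝ × ℝ) : ENNReal := if V⁻¹ < Zh δ z.2 z.1 ∧ Zh δ z.2 z.1 < V then 0 else fu δ β z

lemma bb_meas2 (δ V β : ℝ) : Measurable (bb δ V β) := by
  unfold bb
  refine Measurable.ite ?_ measurable_const (fu_meas2 δ β)
  exact (measurableSet_lt measurable_const (Zh_meas2 δ)).inter (measurableSet_lt (Zh_meas2 δ) measurable_const)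

lemma bb_meas (δ V β t : ℝ) : Measurable fun h : ℝ => bb δ V β (t, h) := (bb_meas2 δ V β).comp (measurable_const.prodMk measurable_id)

lemma fu_eq {δ V β : ℝ} (hβ : 0 < β) (z : ℝ × ℝ) : fu δ β z = ff δ V β z + bb δ V β z := by
  unfold ff bb tz
  split_ifs with h
  · rw [add_zero]
    rfl
  · rw [Real.zero_rpow (by linarith), ENNReal.ofReal_zero, zero_add]

lemma ff_le {δ V β : ℝ} (hβ : 0 < β) (z : ℝ × ℝ) : ff δ V β z ≤ fu δ β z := by
  rw [fu_eq (V := V) hβ]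
  exact le_self_add

/-- the moments of moments -/
def MU (n : ℕ) (β δ H T : ℝ) : ENNReal := ∫⁻ t in Set.Ioc 0 T, (∫⁻ h in Set.Ioc (-H) H, fu δ β (t, h)) ^ (n + 1)

lemma MT_le {n : ℕ} {V β δ H T : ℝ} (hβ : 0 < β) : MT n V β δ H T ≤ MU n β δ H T := by
  unfold MT MU
  exact lintegral_mono fun t => pow_le_pow_left' (lintegral_mono fun h => ff_le hβ _) _

lemma two_pow_max (a b : ENNReal) (m : ℕ) : (a + b) ^ m ≤ 2 ^ m * (a ^ m + b ^ m) := by
  rcases le_total a b with h | h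
  · calc (a + b) ^ m ≤ (2 * b) ^ m := pow_le_pow_left' (by rw [two_mul]; exact add_le_add h le_rfl) _
      _ = 2 ^ m * b ^ m := mul_pow _ _ _
      _ ≤ _ := mul_le_mul_right le_add_self _
  · calc (a + b) ^ m ≤ (2 * a) ^ m := pow_le_pow_left' (by rw [two_mul]; exact add_le_add le_rfl h) _
      _ = 2 ^ m * a ^ m := mul_pow _ _ _
      _ ≤ _ := mul_le_mul_right le_self_add _

/-- the contribution of the large or small values -/
lemma bad_le {n : ℕ} {V β δ H T : ℝ} (hH1 : H ≤ 1) {X : ENNReal}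
    (hX : ∀ h ∈ Set.Ioc (-H) H, ∫⁻ t in Set.Ioc 0 T, bb δ V β (t, h) ^ (n + 1) ≤ X) :
    ∫⁻ t in Set.Ioc 0 T, (∫⁻ h in Set.Ioc (-H) H, bb δ V β (t, h)) ^ (n + 1) ≤ 2 ^ (n + 1) * X := by
  have hK : Measurable ((Set.Ioc (-H) H).indicator fun _ : ℝ => (2⁻¹ : ENNReal)) := measurable_const.indicator measurableSet_Ioc
  have hK1 : ∫⁻ w, (Set.Ioc (-H) H).indicator (fun _ : ℝ => (2⁻¹ : ENNReal)) w ≤ 1 := by
    rw [lintegral_indicator measurableSet_Ioc, setLIntegral_const, Real.volume_Ioc]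
    calc (2⁻¹ : ENNReal) * ENNReal.ofReal (H - -H) ≤ 2⁻¹ * ENNReal.ofReal 2 := mul_le_mul_right (ENNReal.ofReal_le_ofReal (by linarith)) _
      _ = 1 := by
        rw [ENNReal.ofReal_ofNat]
        exact ENNReal.inv_mul_cancel (by norm_num) (by norm_num)
  have hind : ∀ (g : ℝ → ENNReal), ∫⁻ w, (Set.Ioc (-H) H).indicator (fun _ : ℝ => (2⁻¹ : ENNReal)) w * g w = ∫⁻ w in Set.Ioc (-H) H, 2⁻¹ * g w := by
    intro g
    rw [← lintegral_indicator measurableSet_Ioc]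
    refine lintegral_congr fun w => ?_
    by_cases hw : w ∈ Set.Ioc (-H) H
    · rw [Set.indicator_of_mem hw, Set.indicator_of_mem hw]
    · rw [Set.indicator_of_notMem hw, Set.indicator_of_notMem hw, zero_mul]
  have h1 : ∀ t : ℝ, (∫⁻ h in Set.Ioc (-H) H, bb δ V β (t, h)) ^ (n + 1) ≤ 2 ^ (n + 1) * ∫⁻ h in Set.Ioc (-H) H, 2⁻¹ * bb δ V β (t, h) ^ (n + 1) := by
    intro t
    have h2 := jens hK (bb_meas δ V β t) hK1 n
    rw [hind, hind, lintegral_const_mul _ (bb_meas δ V β t), mul_pow] at h2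
    calc (∫⁻ h in Set.Ioc (-H) H, bb δ V β (t, h)) ^ (n + 1) = 2 ^ (n + 1) * (2⁻¹ ^ (n + 1) * (∫⁻ h in Set.Ioc (-H) H, bb δ V β (t, h)) ^ (n + 1)) := by
          rw [← mul_assoc, ← mul_pow, ENNReal.mul_inv_cancel (by norm_num) (by norm_num), one_pow, one_mul]
      _ ≤ _ := mul_le_mul_right h2 _
  refine (lintegral_mono h1).trans ?_
  have hm : Measurable fun z : ℝ × ℝ => (2⁻¹ : ENNReal) * bb δ V β z ^ (n + 1) := ((bb_meas2 δ V β).pow_const _).const_mul _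
  have hm1 : Measurable fun t : ℝ => ∫⁻ h in Set.Ioc (-H) H, (2⁻¹ : ENNReal) * bb δ V β (t, h) ^ (n + 1) := hm.lintegral_prod_right'
  rw [lintegral_const_mul _ hm1]
  refine mul_le_mul_right ?_ _
  have hm2 : Measurable (Function.uncurry fun t h : ℝ => (2⁻¹ : ENNReal) * bb δ V β (t, h) ^ (n + 1)) := hm
  rw [lintegral_lintegral_swap hm2.aemeasurable]
  calc ∫⁻ h in Set.Ioc (-H) H, ∫⁻ t in Set.Ioc 0 T, (2⁻¹ : ENNReal) * bb δ V β (t, h) ^ (n + 1) ≤ ∫⁻ _h in Set.Ioc (-H) H, 2⁻¹ * X := by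
        refine setLIntegral_mono' measurableSet_Ioc fun h hh => ?_
        have hmh : Measurable fun t : ℝ => bb δ V β (t, h) ^ (n + 1) := ((bb_meas2 δ V β).comp (measurable_id.prodMk measurable_const)).pow_const _
        rw [lintegral_const_mul _ hmh]
        exact mul_le_mul_right (hX h hh) _
    _ = 2⁻¹ * X * ENNReal.ofReal (H - -H) := by rw [setLIntegral_const, Real.volume_Ioc]
    _ ≤ 2⁻¹ * X * ENNReal.ofReal 2 := mul_le_mul_right (ENNReal.ofReal_le_ofReal (by linarith)) _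
    _ = X := by
      rw [ENNReal.ofReal_ofNat, mul_comm, ← mul_assoc, ENNReal.mul_inv_cancel (by norm_num) (by norm_num), one_mul]

/-- Hoelder's inequality on the bad set -/
lemma bad_h {n : ℕ} {V β δ T h p : ℝ} (hβ : 0 < β) (hp : p = ((n:ℝ) + 1) * β / 2) (hp1 : p < 1) {M X : ℝ} (hM0 : 0 ≤ M) (hX0 : 0 ≤ X)
    (hM : ∫⁻ t in Set.Ioc 0 T, ENNReal.ofReal (Zh δ h t ^ (4:ℝ)) ≤ ENNReal.ofReal M)
    (hX : (volume (Set.Ioc 0 T \ Gd δ V h)).toReal ≤ X) :
    ∫⁻ t in Set.Ioc 0 T, bb δ V β (t, h) ^ (n + 1) ≤ ENNReal.ofReal (M ^ p * X ^ (1 - p)) := by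
  have hp0 : 0 < p := by rw [hp]; positivity
  have h1 : ∀ t : ℝ, bb δ V β (t, h) ^ (n + 1) = (Gd δ V h)ᶜ.indicator (fun t => ENNReal.ofReal (Zh δ h t ^ (4:ℝ)) ^ p * (1:ENNReal) ^ (1 - p)) t := by
    intro t
    by_cases ht : t ∈ Gd δ V h
    · have hc : t ∉ (Gd δ V h)ᶜ := fun h2 => h2 ht
      have ht' : V⁻¹ < Zh δ (t, h).2 (t, h).1 ∧ Zh δ (t, h).2 (t, h).1 < V := ht
      rw [Set.indicator_of_notMem hc]
      unfold bb
      rw [if_pos ht', zero_pow (Nat.succ_ne_zero n)]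
    · rw [Set.indicator_of_mem (show t ∈ (Gd δ V h)ᶜ from ht)]
      have ht' : ¬ (V⁻¹ < Zh δ (t, h).2 (t, h).1 ∧ Zh δ (t, h).2 (t, h).1 < V) := ht
      unfold bb fu
      rw [if_neg ht', ENNReal.one_rpow, mul_one, ← ENNReal.ofReal_pow (Real.rpow_nonneg (Zh_nn _ _ _) _),
        ENNReal.ofReal_rpow_of_nonneg (Real.rpow_nonneg (Zh_nn _ _ _) _) hp0.le, ← Real.rpow_mul (Zh_nn _ _ _), ← Real.rpow_natCast, ← Real.rpow_mul (Zh_nn _ _ _)]
      congr 2
      rw [hp]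
      push_cast
      ring
  simp only [h1]
  rw [lintegral_indicator (Gd_meas δ V h).compl, Measure.restrict_restrict (Gd_meas δ V h).compl]
  have hset : (Gd δ V h)ᶜ ∩ Set.Ioc 0 T = Set.Ioc 0 T \ Gd δ V h := by
    rw [Set.inter_comm]
    rfl
  rw [hset]
  have hZm : Measurable fun t : ℝ => ENNReal.ofReal (Zh δ h t ^ (4:ℝ)) := ((Zh_meas δ h).pow_const _).ennreal_ofReal
  have h2 := ENNReal.lintegral_mul_norm_pow_le (μ := volume.restrict (Set.Ioc 0 T \ Gd δ V h)) (f := fun t => ENNReal.ofReal (Zh δ h t ^ (4:ℝ)))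
    (g := fun _ => (1:ENNReal)) (p := p) (q := 1 - p) hZm.aemeasurable aemeasurable_const hp0.le (by linarith) (by ring)
  refine h2.trans ?_
  rw [lintegral_const, one_mul, Measure.restrict_apply_univ, ENNReal.ofReal_mul (by positivity)]
  refine mul_le_mul' ?_ ?_
  · rw [← ENNReal.ofReal_rpow_of_nonneg hM0 hp0.le]
    refine ENNReal.rpow_le_rpow ?_ hp0.le
    exact (lintegral_mono_set Set.sdiff_subset).trans hM
  · rw [← ENNReal.ofReal_rpow_of_nonneg hX0 (by linarith)]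
    refine ENNReal.rpow_le_rpow ?_ (by linarith)
    have hfin : volume (Set.Ioc 0 T \ Gd δ V h) ≠ ⊤ := (measure_lt_top_of_subset Set.sdiff_subset (by rw [Real.volume_Ioc]; exact ENNReal.ofReal_ne_top)).ne
    rw [← ENNReal.ofReal_toReal hfin]
    exact ENNReal.ofReal_le_ofReal hX

end

end Pool.Agent.X111.MO
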