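import Pool.Agent.X111.MO.Int

set_option autoImplicit false
set_option linter.unusedSectionVars false

/-! The integral of the product of the distances. -/

namespace Pool.Agent.X111.MO

open Finset MeasureTheory Filter Topology

noncomputable section

/-- the measure on one window -/
abbrev mw (H : ℝ) : Measure ℝ := volume.restrict (Set.Ioc (-H) H)

/-- the measure on the tuples -/
abbrev mp (q : ℕ) (H : ℝ) : Measure (Fin q → ℝ) := Measure.pi fun _ => mw H

lemma xx_nn (δ u : ℝ) : 0 ≤ xx δ u := norm_nonneg _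

lemma mw_univ {H : ℝ} : mw H Set.univ = ENNReal.ofReal (2 * H) := by
  rw [Measure.restrict_apply_univ, Real.volume_Ioc]
  congr 1
  ring

lemma PX_meas {q : ℕ} (γ δ : ℝ) : Measurable fun h : Fin q → ℝ => PX γ δ h := by
  unfold PX
  refine Finset.measurable_fun_prod _ fun i _ => Finset.measurable_fun_prod _ fun j _ => ?_
  exact ((xx_cont δ).measurable.comp ((measurable_pi_apply i).sub (measurable_pi_apply j))).pow_const _

/-- the upper bound -/
lemma PX_up {n : ℕ} {γ δ H : ℝ} (hδ : 0 < δ) (hH : δ ≤ H) (hγ0 : 0 ≤ γ) (hγ : ((n + 1 : ℕ) : ℝ) * γ ≠ 1) :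
    ∫⁻ h, ENNReal.ofReal (PX γ δ h) ∂(mp (n + 1) H) ≤
      ENNReal.ofReal ((n + 1 : ℕ) * ((2 * δ) ^ (-(((n + 1 : ℕ) : ℝ) * γ)) * (2 * GJ (((n + 1 : ℕ) : ℝ) * γ) δ H) ^ n * (2 * H))) := by
  obtain ⟨g, hg⟩ : ∃ g : ℝ, g = ((n + 1 : ℕ) : ℝ) * γ := ⟨_, rfl⟩
  have hg0 : 0 ≤ g := by rw [hg]; positivity
  rw [← hg] at hγ ⊢
  have hH0 : 0 < H := by linarith
  have hGn := GJ_nn hδ hH hg0 hγ
  have hmF : Measurable fun u : ℝ => ENNReal.ofReal (xx δ u ^ (-g)) := ((xx_cont δ).measurable.pow_const _).ennreal_ofReal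
  have h1 : ∀ h : Fin (n + 1) → ℝ, ENNReal.ofReal (PX γ δ h) ≤ ∑ i, ∏ j, ENNReal.ofReal (xx δ (h i - h j) ^ (-g)) := by
    intro h
    have h2 := PX_le (q := n + 1) (Nat.succ_pos n) γ (δ := δ) h
    rw [← hg] at h2
    refine (ENNReal.ofReal_le_ofReal h2).trans (le_of_eq ?_)
    rw [ENNReal.ofReal_sum_of_nonneg fun i _ => prod_nonneg fun _ _ => Real.rpow_nonneg (xx_nn _ _) _]
    refine Finset.sum_congr rfl fun i _ => ?_
    rw [ENNReal.ofReal_prod_of_nonneg fun _ _ => Real.rpow_nonneg (xx_nn _ _) _]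
  refine (lintegral_mono h1).trans ?_
  have hm : ∀ i : Fin (n + 1), Measurable fun h : Fin (n + 1) → ℝ => ∏ j, ENNReal.ofReal (xx δ (h i - h j) ^ (-g)) := fun i =>
    Finset.measurable_fun_prod _ fun j _ => hmF.comp ((measurable_pi_apply i).sub (measurable_pi_apply j))
  rw [lintegral_finsetSum _ fun i _ => hm i]
  have h2 : ∀ i : Fin (n + 1), ∫⁻ h, ∏ j, ENNReal.ofReal (xx δ (h i - h j) ^ (-g)) ∂(mp (n + 1) H) ≤
      ENNReal.ofReal ((2 * δ) ^ (-g) * (2 * GJ g δ H) ^ n * (2 * H)) := by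
    intro i
    have hG : ∀ᵐ x ∂(mw H), ∫⁻ r, (fun u => ENNReal.ofReal (xx δ u ^ (-g))) (x - r) ∂(mw H) ≤ ENNReal.ofReal (2 * GJ g δ H) := by
      filter_upwards [ae_restrict_mem measurableSet_Ioc] with x hx
      exact slide hδ hH hg0 hγ hx
    have h3 := key_up (n := n) (mw H) hmF hG i
    refine h3.trans (le_of_eq ?_)
    have e0 : xx δ 0 = 2 * δ := by
      unfold xx
      rw [Complex.ofReal_zero, zero_mul, add_zero, Complex.norm_real, Real.norm_of_nonneg (by positivity)]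
    rw [mw_univ, e0, ← ENNReal.ofReal_pow (by positivity), ← ENNReal.ofReal_mul (by positivity), ← ENNReal.ofReal_mul (by positivity)]
  refine (Finset.sum_le_sum fun i _ => h2 i).trans (le_of_eq ?_)
  rw [Finset.sum_const, Finset.card_univ, Fintype.card_fin, nsmul_eq_mul, ← ENNReal.ofReal_natCast, ← ENNReal.ofReal_mul (Nat.cast_nonneg _)]

/-- a pointwise lower bound -/
lemma PX_ge {q : ℕ} {γ δ : ℝ} (hδ : 0 < δ) (hγ0 : 0 ≤ γ) (h : Fin q → ℝ) {r : ℝ} (hr : ∀ i j, xx δ (h i - h j) ≤ r) :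
    r ^ (-((q:ℝ) * q * γ)) ≤ PX γ δ h ∨ q = 0 := by
  rcases Nat.eq_zero_or_pos q with h0 | h0
  · exact Or.inr h0
  · left
    have hr0 : 0 < r := lt_of_lt_of_le (xx_pos hδ _) (hr ⟨0, h0⟩ ⟨0, h0⟩)
    unfold PX
    have h1 : ∀ i j, r ^ (-γ) ≤ xx δ (h i - h j) ^ (-γ) := fun i j => Real.rpow_le_rpow_of_nonpos (xx_pos hδ _) (hr i j) (by linarith)
    calc r ^ (-((q:ℝ) * q * γ)) = ∏ _i : Fin q, ∏ _j : Fin q, r ^ (-γ) := by
          simp only [Finset.prod_const, Finset.card_univ, Fintype.card_fin]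
          rw [← pow_mul, ← Real.rpow_natCast, ← Real.rpow_mul hr0.le]
          congr 1
          push_cast
          ring
      _ ≤ _ := Finset.prod_le_prod (fun _ _ => prod_nonneg fun _ _ => Real.rpow_nonneg hr0.le _) fun i _ =>
          Finset.prod_le_prod (fun _ _ => Real.rpow_nonneg hr0.le _) fun j _ => h1 i j

/-- lower bound by one cluster -/
lemma PX_lo1 {n : ℕ} {γ δ H : ℝ} (hδ : 0 < δ) (hH : δ ≤ H) (hγ0 : 0 ≤ γ) :
    ENNReal.ofReal ((4 * δ) ^ (-(((n + 1 : ℕ):ℝ) * (n + 1 : ℕ) * γ)) * δ ^ n * (2 * H)) ≤ ∫⁻ h, ENNReal.ofReal (PX γ δ h) ∂(mp (n + 1) H) := by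
  have hH0 : 0 < H := by linarith
  rw [lint_split (mw H) 0 (PX_meas γ δ).ennreal_ofReal]
  obtain ⟨c, hc⟩ : ∃ c : ℝ, c = (4 * δ) ^ (-(((n + 1 : ℕ):ℝ) * (n + 1 : ℕ) * γ)) := ⟨_, rfl⟩
  have hc0 : 0 ≤ c := by rw [hc]; positivity
  rw [← hc]
  have h1 : ∀ x ∈ Set.Ioc (-H) H, ENNReal.ofReal (c * δ ^ n) ≤ ∫⁻ r, ENNReal.ofReal (PX γ δ (se 0 (x, r))) ∂(mp n H) := by
    intro x hx
    obtain ⟨S, hS⟩ : ∃ S : Set ℝ, S = Set.Ioc (-H) H ∩ Set.Icc (x - δ) (x + δ) := ⟨_, rfl⟩
    have hSm : MeasurableSet S := by rw [hS]; exact measurableSet_Ioc.inter measurableSet_Icc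
    have hSv : ENNReal.ofReal δ ≤ mw H S := by
      rw [Measure.restrict_apply hSm]
      rcases le_or_gt x 0 with h0 | h0
      · have h2 : Set.Ioc x (x + δ) ⊆ S ∩ Set.Ioc (-H) H := by
          intro y hy
          rw [hS]
          exact ⟨⟨⟨by linarith [hx.1, hy.1], by linarith [hy.2]⟩, by linarith [hy.1], hy.2⟩, by linarith [hx.1, hy.1], by linarith [hy.2]⟩
        refine le_trans (le_of_eq ?_) (measure_mono h2)
        rw [Real.volume_Ioc]
        congr 1
        ring
      · have h2 : Set.Ioc (x - δ) x ⊆ S ∩ Set.Ioc (-H) H := by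
          intro y hy
          rw [hS]
          exact ⟨⟨⟨by linarith [hy.1], by linarith [hx.2, hy.2]⟩, hy.1.le, by linarith [hy.2]⟩, by linarith [hy.1], by linarith [hx.2, hy.2]⟩
        refine le_trans (le_of_eq ?_) (measure_mono h2)
        rw [Real.volume_Ioc]
        congr 1
        ring
    have h3 : ∀ r : Fin n → ℝ, ENNReal.ofReal c * ∏ j, S.indicator (fun _ => (1:ENNReal)) (r j) ≤ ENNReal.ofReal (PX γ δ (se 0 (x, r))) := by
      intro r
      by_cases hr : ∀ j, r j ∈ S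
      · have h4 : ∏ j, S.indicator (fun _ => (1:ENNReal)) (r j) = 1 := Finset.prod_eq_one fun j _ => Set.indicator_of_mem (hr j) _
        rw [h4, mul_one]
        refine ENNReal.ofReal_le_ofReal ?_
        have h5 : ∀ i : Fin (n + 1), |se 0 (x, r) i - x| ≤ δ := by
          intro i
          refine Fin.cases ?_ (fun j => ?_) i
          · rw [se_same, sub_self, abs_zero]
            exact hδ.le
          · have h6 : se 0 (x, r) j.succ = r j := by
              have := se_above 0 x r j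
              rwa [Fin.zero_succAbove] at this
            rw [h6]
            have h7 := hr j
            rw [hS] at h7
            rw [abs_le]
            constructor <;> linarith [h7.2.1, h7.2.2]
        have h6 := PX_ge (γ := γ) hδ hγ0 (se 0 (x, r)) (r := 4 * δ) (fun i j => by
          refine (xx_le hδ.le _).trans ?_
          have h7 := h5 i
          have h8 := h5 j
          have h9 : |se 0 (x, r) i - se 0 (x, r) j| ≤ 2 * δ := by
            have : se 0 (x, r) i - se 0 (x, r) j = (se 0 (x, r) i - x) - (se 0 (x, r) j - x) := by ring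
            rw [this]
            exact (abs_sub _ _).trans (by linarith)
          linarith)
        rcases h6 with h6 | h6
        · rw [hc]
          exact h6
        · exact absurd h6 (Nat.succ_ne_zero n)
      · push Not at hr
        obtain ⟨j, hj⟩ := hr
        have h4 : ∏ j, S.indicator (fun _ => (1:ENNReal)) (r j) = 0 := Finset.prod_eq_zero (Finset.mem_univ j) (Set.indicator_of_notMem hj _)
        rw [h4, mul_zero]
        exact zero_le
    have hmi : Measurable (S.indicator fun _ => (1:ENNReal)) := measurable_const.indicator hSm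
    have hmp : Measurable fun r : Fin n → ℝ => ∏ j, S.indicator (fun _ => (1:ENNReal)) (r j) :=
      Finset.measurable_fun_prod _ fun j _ => hmi.comp (measurable_pi_apply j)
    refine le_trans ?_ (lintegral_mono h3)
    rw [lintegral_const_mul _ hmp, lint_pi (mw H) hmi,
      lintegral_indicator_const hSm, one_mul, ENNReal.ofReal_mul hc0, ENNReal.ofReal_pow hδ.le]
    gcongr
  have h2 : ∫⁻ _x in Set.Ioc (-H) H, ENNReal.ofReal (c * δ ^ n) ≤ ∫⁻ x in Set.Ioc (-H) H, ∫⁻ r, ENNReal.ofReal (PX γ δ (se 0 (x, r))) ∂(mp n H) :=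
    setLIntegral_mono' measurableSet_Ioc h1
  refine le_trans (le_of_eq ?_) h2
  rw [setLIntegral_const, Real.volume_Ioc, ← ENNReal.ofReal_mul (by positivity)]
  congr 1
  ring

/-- lower bound by spread points -/
lemma PX_lo2 {n : ℕ} {γ δ H : ℝ} (hδ : 0 < δ) (hH : δ ≤ H) (hγ0 : 0 ≤ γ) :
    ENNReal.ofReal ((2 * δ) ^ (-(((n + 1 : ℕ):ℝ) * γ)) * (4 * H) ^ (-(((n + 1 : ℕ):ℝ) * n * γ)) * (2 * H) ^ (n + 1)) ≤
      ∫⁻ h, ENNReal.ofReal (PX γ δ h) ∂(mp (n + 1) H) := by
  have hH0 : 0 < H := by linarith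
  obtain ⟨S, hS⟩ : ∃ S : Set ℝ, S = Set.Ioc (-H) H := ⟨_, rfl⟩
  have hSm : MeasurableSet S := by rw [hS]; exact measurableSet_Ioc
  obtain ⟨c, hc⟩ : ∃ c : ℝ, c = (2 * δ) ^ (-(((n + 1 : ℕ):ℝ) * γ)) * (4 * H) ^ (-(((n + 1 : ℕ):ℝ) * n * γ)) := ⟨_, rfl⟩
  have hc0 : 0 ≤ c := by rw [hc]; positivity
  rw [← hc]
  have h3 : ∀ h : Fin (n + 1) → ℝ, ENNReal.ofReal c * ∏ j, S.indicator (fun _ => (1:ENNReal)) (h j) ≤ ENNReal.ofReal (PX γ δ h) := by
    intro h
    by_cases hr : ∀ j, h j ∈ S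
    · have h4 : ∏ j, S.indicator (fun _ => (1:ENNReal)) (h j) = 1 := Finset.prod_eq_one fun j _ => Set.indicator_of_mem (hr j) _
      rw [h4, mul_one]
      refine ENNReal.ofReal_le_ofReal ?_
      have hx : ∀ i j, xx δ (h i - h j) ≤ 4 * H := by
        intro i j
        refine (xx_le hδ.le _).trans ?_
        have h7 := hr i
        have h8 := hr j
        rw [hS] at h7 h8
        have h9 : |h i - h j| ≤ 2 * H := by
          rw [abs_le]
          constructor <;> linarith [h7.1, h7.2, h8.1, h8.2]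
        linarith
      unfold PX
      have e0 : xx δ 0 = 2 * δ := by
        unfold xx
        rw [Complex.ofReal_zero, zero_mul, add_zero, Complex.norm_real, Real.norm_of_nonneg (by positivity)]
      have h1 : ∀ i, (2 * δ) ^ (-γ) * ((4 * H) ^ (-γ)) ^ n ≤ ∏ j, xx δ (h i - h j) ^ (-γ) := by
        intro i
        rw [Fin.prod_univ_succAbove _ i, sub_self, e0]
        refine mul_le_mul_of_nonneg_left ?_ (by positivity)
        calc ((4 * H) ^ (-γ)) ^ n = ∏ _j : Fin n, (4 * H) ^ (-γ) := by simp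
          _ ≤ _ := Finset.prod_le_prod (fun _ _ => by positivity) fun j _ =>
            Real.rpow_le_rpow_of_nonpos (xx_pos hδ _) (hx i _) (by linarith)
      calc c = ∏ _i : Fin (n + 1), ((2 * δ) ^ (-γ) * ((4 * H) ^ (-γ)) ^ n) := by
            simp only [Finset.prod_const, Finset.card_univ, Fintype.card_fin]
            rw [mul_pow, ← pow_mul, hc, ← Real.rpow_natCast, ← Real.rpow_natCast, ← Real.rpow_mul (by positivity), ← Real.rpow_mul (by positivity)]
            congr 2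
            · push_cast; ring
            · push_cast; ring
        _ ≤ _ := Finset.prod_le_prod (fun _ _ => by positivity) fun i _ => h1 i
    · push Not at hr
      obtain ⟨j, hj⟩ := hr
      have h4 : ∏ j, S.indicator (fun _ => (1:ENNReal)) (h j) = 0 := Finset.prod_eq_zero (Finset.mem_univ j) (Set.indicator_of_notMem hj _)
      rw [h4, mul_zero]
      exact zero_le
  have hmi : Measurable (S.indicator fun _ => (1:ENNReal)) := measurable_const.indicator hSm
  have hmp : Measurable fun r : Fin (n + 1) → ℝ => ∏ j, S.indicator (fun _ => (1:ENNReal)) (r j) :=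
    Finset.measurable_fun_prod _ fun j _ => hmi.comp (measurable_pi_apply j)
  refine le_trans (le_of_eq ?_) (lintegral_mono h3)
  rw [lintegral_const_mul _ hmp, lint_pi (mw H) hmi,
    lintegral_indicator_const hSm, one_mul, hS, Measure.restrict_apply measurableSet_Ioc, Set.inter_self, Real.volume_Ioc, ← ENNReal.ofReal_pow (by linarith), ← ENNReal.ofReal_mul hc0]
  congr 2
  ring

end

end Pool.Agent.X111.MO
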