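import Pool.Agent.X111.MS.Jm2

set_option autoImplicit false
set_option linter.unusedSectionVars false

/-! Joint moments at imaginary shifts, up to constants. -/

namespace Pool.Agent.X111.MO

open Finset MeasureTheory Filter Topology
open Pool.Agent.X111.MS (DG DG_ge uu dg JI jm)

noncomputable section

/-- the shifts -/
def wh {q : ℕ} (h : Fin q → ℝ) (j : Fin q) : ℂ := (h j : ℂ) * Complex.I

lemma wh_re {q : ℕ} (h : Fin q → ℝ) (j : Fin q) : (wh h j).re = 0 := by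
  unfold wh
  simp

lemma wh_im {q : ℕ} (h : Fin q → ℝ) (j : Fin q) : (wh h j).im = h j := by
  unfold wh
  simp

/-- the distances -/
def xx (δ u : ℝ) : ℝ := ‖((2 * δ : ℝ) : ℂ) + (u : ℂ) * Complex.I‖

lemma uu_wh {q : ℕ} (δ : ℝ) (h : Fin q → ℝ) (i j : Fin q) : ‖uu δ (wh h i) (wh h j)‖ = xx δ (h i - h j) := by
  unfold uu wh xx
  rw [map_mul, Complex.conj_ofReal, Complex.conj_I]
  congr 1
  push_cast
  ring

lemma xx_ge1 {δ : ℝ} (hδ : 0 ≤ δ) (u : ℝ) : 2 * δ ≤ xx δ u := by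
  have h1 := Complex.abs_re_le_norm (((2 * δ : ℝ) : ℂ) + (u : ℂ) * Complex.I)
  simp only [Complex.add_re, Complex.ofReal_re, Complex.mul_re, Complex.I_re, Complex.ofReal_im, Complex.I_im, mul_zero, sub_zero, add_zero, mul_one] at h1
  rw [abs_of_nonneg (by positivity)] at h1
  exact h1

lemma xx_ge2 (δ u : ℝ) : |u| ≤ xx δ u := by
  have h1 := Complex.abs_im_le_norm (((2 * δ : ℝ) : ℂ) + (u : ℂ) * Complex.I)
  simp only [Complex.add_im, Complex.ofReal_re, Complex.mul_im, Complex.I_re, Complex.ofReal_im, Complex.I_im, mul_zero, add_zero, zero_add, mul_one] at h1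
  exact h1

lemma xx_le {δ : ℝ} (hδ : 0 ≤ δ) (u : ℝ) : xx δ u ≤ 2 * δ + |u| := by
  unfold xx
  refine (norm_add_le _ _).trans ?_
  rw [norm_mul, Complex.norm_I, mul_one, Complex.norm_real, Complex.norm_real, Real.norm_of_nonneg (by positivity), Real.norm_eq_abs]

lemma xx_pos {δ : ℝ} (hδ : 0 < δ) (u : ℝ) : 0 < xx δ u := lt_of_lt_of_le (by linarith) (xx_ge1 hδ.le u)

lemma xx_cont (δ : ℝ) : Continuous (xx δ) := by
  unfold xx
  fun_prop

/-- the product of the distances -/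
def PX {q : ℕ} (γ δ : ℝ) (h : Fin q → ℝ) : ℝ := ∏ i, ∏ j, xx δ (h i - h j) ^ (-γ)

lemma PX_nn {q : ℕ} (γ δ : ℝ) (h : Fin q → ℝ) : 0 ≤ PX γ δ h :=
  prod_nonneg fun _ _ => prod_nonneg fun _ _ => Real.rpow_nonneg (norm_nonneg _) _

lemma PX_exp {q : ℕ} (γ : ℝ) {δ : ℝ} (hδ : 0 < δ) (h : Fin q → ℝ) : PX γ δ h = Real.exp (-(γ * ∑ i, ∑ j, Real.log (xx δ (h i - h j)))) := by
  unfold PX
  have h1 : ∀ i j, xx δ (h i - h j) ^ (-γ) = Real.exp (Real.log (xx δ (h i - h j)) * (-γ)) := fun i j => Real.rpow_def_of_pos (xx_pos hδ _) _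
  simp only [h1]
  simp only [← Real.exp_sum]
  congr 1
  rw [Finset.mul_sum, ← Finset.sum_neg_distrib]
  refine Finset.sum_congr rfl fun i _ => ?_
  rw [Finset.mul_sum, ← Finset.sum_neg_distrib]
  refine Finset.sum_congr rfl fun j _ => ?_
  ring

/-- the diagonal sums -/
theorem dgq (q K : ℕ) (hK : 0 < q * K) : ∃ C : ℝ, 1 ≤ C ∧ ∀ (β : ℝ) (h : Fin q → ℝ) (δ : ℝ), |β| ≤ K → (∀ j, |h j| ≤ 1) → 0 < δ → δ ≤ 1 / 16 →
    C⁻¹ * PX (β ^ 2) δ h ≤ DG (fun _ => β) (wh h) δ ∧ DG (fun _ => β) (wh h) δ ≤ C * PX (β ^ 2) δ h := by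
  obtain ⟨C, hC, hdg⟩ := dg q K hK
  refine ⟨Real.exp C, Real.one_le_exp hC.le, fun β h δ hβ hh hδ hδ1 => ?_⟩
  have h1 := hdg (fun _ => β) (wh h) δ (fun _ => hβ) (fun j => by
    rw [wh_re, wh_im]
    exact ⟨le_rfl, by norm_num, hh j⟩) hδ hδ1
  have hD : 0 < DG (fun _ => β) (wh h) δ := lt_of_lt_of_le one_pos (DG_ge (K := K) (fun _ => hβ) (fun j => by rw [wh_re]) hδ)
  simp only [uu_wh] at h1
  have e1 : ∑ i, ∑ j, β * β * Real.log (xx δ (h i - h j)) = β ^ 2 * ∑ i, ∑ j, Real.log (xx δ (h i - h j)) := by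
    rw [Finset.mul_sum]
    refine Finset.sum_congr rfl fun i _ => ?_
    rw [Finset.mul_sum]
    refine Finset.sum_congr rfl fun j _ => ?_
    ring
  rw [e1] at h1
  obtain ⟨S, hS⟩ : ∃ S : ℝ, S = β ^ 2 * ∑ i, ∑ j, Real.log (xx δ (h i - h j)) := ⟨_, rfl⟩
  rw [PX_exp _ hδ, ← hS, ← Real.exp_neg, ← Real.exp_add, ← Real.exp_add]
  rw [← hS] at h1
  obtain ⟨h2, h3⟩ := abs_le.mp h1
  constructor
  · rw [← Real.exp_log hD]
    exact Real.exp_le_exp.mpr (by linarith)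
  · rw [← Real.exp_log hD]
    exact Real.exp_le_exp.mpr (by linarith)

/-- a product is at most the sum of the powers -/
lemma prod_le_sum_pow {q : ℕ} (hq : 0 < q) (a : Fin q → ℝ) (ha : ∀ i, 0 ≤ a i) : ∏ i, a i ≤ ∑ i, a i ^ q := by
  have : Nonempty (Fin q) := ⟨⟨0, hq⟩⟩
  obtain ⟨i0, _, hi0⟩ := Finset.exists_max_image (Finset.univ : Finset (Fin q)) a Finset.univ_nonempty
  calc ∏ i, a i ≤ ∏ _i : Fin q, a i0 := Finset.prod_le_prod (fun i _ => ha i) fun i hi => hi0 i hi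
    _ = a i0 ^ q := by simp
    _ ≤ ∑ i, a i ^ q := Finset.single_le_sum (f := fun i => a i ^ q) (fun i _ => pow_nonneg (ha i) q) (Finset.mem_univ i0)

lemma PX_le {q : ℕ} (hq : 0 < q) (γ : ℝ) {δ : ℝ} (h : Fin q → ℝ) : PX γ δ h ≤ ∑ i, ∏ j, xx δ (h i - h j) ^ (-(q * γ)) := by
  unfold PX
  refine (prod_le_sum_pow hq _ fun i => prod_nonneg fun _ _ => Real.rpow_nonneg (norm_nonneg _) _).trans (le_of_eq ?_)
  refine Finset.sum_congr rfl fun i _ => ?_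
  rw [← Finset.prod_pow]
  refine Finset.prod_congr rfl fun j _ => ?_
  rw [← Real.rpow_natCast, ← Real.rpow_mul (norm_nonneg _)]
  congr 1
  ring

end

end Pool.Agent.X111.MO
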