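import Pool.Agent.X111.MO.Unt2

set_option autoImplicit false
set_option linter.unusedSectionVars false

/-! Moments of moments: conclusion. -/

namespace Pool.Agent.X111.MO

open Finset MeasureTheory Filter Topology
open Pool.Agent.W184 (zn zn_nonneg zn_cont zn_le' zn_neg)
open Pool.Agent.X111.MS (ev_ll ofReal_int_le)

noncomputable section

/-- the truncated local moments -/
def LV (V σ β H s : ℝ) : ℝ := ∫ h in (-H)..H, tz V (zn σ (s + h)) ^ (2 * β)

lemma LV_nn {V σ β H : ℝ} (hH : 0 ≤ H) (s : ℝ) : 0 ≤ LV V σ β H s :=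
  intervalIntegral.integral_nonneg (by linarith) fun h _ => Real.rpow_nonneg (tz_nn (zn_nonneg _ _)) _

lemma LV_of {V δ β H : ℝ} (hV : 0 ≤ V) (hβ : 0 < β) (hH : 0 ≤ H) (t : ℝ) :
    ∫⁻ h in Set.Ioc (-H) H, ff δ V β (t, h) = ENNReal.ofReal (LV V (1 / 2 + δ) β H t) := by
  unfold LV
  have hm : Measurable fun h : ℝ => tz V (zn (1 / 2 + δ) (t + h)) ^ (2 * β) := by
    have h1 : Measurable fun h : ℝ => tz V (Zh δ h t) ^ (2 * β) := ((tz_meas V).comp (Zh_measH δ t)).pow_const _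
    simpa only [Zh_zn] using h1
  have hint : IntegrableOn (fun h : ℝ => tz V (zn (1 / 2 + δ) (t + h)) ^ (2 * β)) (Set.Ioc (-H) H) := by
    refine Measure.integrableOn_of_bounded (M := V ^ (2 * β)) (by rw [Real.volume_Ioc]; exact ENNReal.ofReal_ne_top) hm.aestronglyMeasurable ?_
    refine Eventually.of_forall fun h => ?_
    rw [Real.norm_of_nonneg (Real.rpow_nonneg (tz_nn (zn_nonneg _ _)) _)]
    exact Real.rpow_le_rpow (tz_nn (zn_nonneg _ _)) (tz_leV hV) (by linarith)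
  rw [intervalIntegral.integral_of_le (by linarith), ofReal_integral_eq_lintegral_ofReal hint
    (Eventually.of_forall fun h => Real.rpow_nonneg (tz_nn (zn_nonneg _ _)) _)]
  refine lintegral_congr fun h => ?_
  unfold ff
  rw [Zh_zn]

lemma LV_meas {V δ β H : ℝ} (hV : 0 ≤ V) (hβ : 0 < β) (hH : 0 ≤ H) : Measurable fun t : ℝ => LV V (1 / 2 + δ) β H t := by
  have h1 : Measurable fun t : ℝ => (∫⁻ h in Set.Ioc (-H) H, ff δ V β (t, h)).toReal := by
    have h10 : Measurable fun t : ℝ => ∫⁻ h in Set.Ioc (-H) H, ff δ V β (t, h) := (ff_meas2 δ V β).lintegral_prod_right'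
    exact h10.ennreal_toReal
  have h2 : (fun t : ℝ => (∫⁻ h in Set.Ioc (-H) H, ff δ V β (t, h)).toReal) = fun t => LV V (1 / 2 + δ) β H t := by
    funext t
    rw [LV_of hV hβ hH, ENNReal.toReal_ofReal (LV_nn hH t)]
  rwa [h2] at h1

lemma LV_le {V δ β H : ℝ} (hV : 0 ≤ V) (hβ : 0 < β) (hδ : δ ≤ 1 / 16) (hH : 0 ≤ H) (t : ℝ) :
    LV V (1 / 2 + δ) β H t ≤ LZ (1 / 2 + δ) β H t := by
  have hσ : 1 / 2 + δ < 1 := by linarith
  have h1 : Continuous fun t : ℝ => zn (1 / 2 + δ) t ^ (2 * β) := (zn_cont hσ).rpow_const fun _ => Or.inr (by linarith)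
  have hc2 : Continuous fun h : ℝ => zn (1 / 2 + δ) (t + h) ^ (2 * β) := h1.comp (continuous_const.add continuous_id)
  have hL : 0 ≤ LZ (1 / 2 + δ) β H t := LZ_nn hH t
  have h2 : ENNReal.ofReal (LV V (1 / 2 + δ) β H t) ≤ ENNReal.ofReal (LZ (1 / 2 + δ) β H t) := by
    rw [← LV_of hV hβ hH]
    unfold LZ
    rw [intervalIntegral.integral_of_le (by linarith), ofReal_integral_eq_lintegral_ofReal (hc2.integrableOn_Icc.mono_set Set.Ioc_subset_Icc_self)
      (Eventually.of_forall fun h => Real.rpow_nonneg (zn_nonneg _ _) _)]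
    refine lintegral_mono fun h => ?_
    unfold ff
    refine ENNReal.ofReal_le_ofReal ?_
    simp only [Zh_zn]
    exact Real.rpow_le_rpow (tz_nn (zn_nonneg _ _)) (tz_le (zn_nonneg _ _)) (by linarith)
  exact (ENNReal.ofReal_le_ofReal_iff hL).mp h2

lemma LV_int {V δ β H : ℝ} (T : ℝ) (hV : 0 ≤ V) (hβ : 0 < β) (hδ : δ ≤ 1 / 16) (hH : 0 ≤ H) (n : ℕ) :
    IntervalIntegrable (fun t => LV V (1 / 2 + δ) β H t ^ (n + 1)) volume 0 T := by
  have hσ : 1 / 2 + δ < 1 := by linarith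
  have hc : Continuous fun t : ℝ => LZ (1 / 2 + δ) β H t ^ (n + 1) := (LZ_cont hσ hβ H).pow _
  refine (hc.intervalIntegrable 0 T).mono_fun ((LV_meas hV hβ hH).pow_const _).aestronglyMeasurable ?_
  refine Eventually.of_forall fun t => ?_
  show ‖LV V (1 / 2 + δ) β H t ^ (n + 1)‖ ≤ ‖LZ (1 / 2 + δ) β H t ^ (n + 1)‖
  rw [Real.norm_of_nonneg (pow_nonneg (LV_nn hH t) _), Real.norm_of_nonneg (pow_nonneg (LZ_nn hH t) _)]
  exact pow_le_pow_left₀ (LV_nn hH t) (LV_le hV hβ hδ hH t) _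

lemma MT_int {V δ β H T : ℝ} (hV : 0 ≤ V) (hβ : 0 < β) (hδ : δ ≤ 1 / 16) (hH : 0 ≤ H) (hT : 0 ≤ T) (n : ℕ) :
    MT n V β δ H T = ENNReal.ofReal (∫ t in (0:ℝ)..T, LV V (1 / 2 + δ) β H t ^ (n + 1)) := by
  unfold MT
  have hi := LV_int T hV hβ hδ hH n
  rw [intervalIntegrable_iff_integrableOn_Ioc_of_le hT] at hi
  rw [intervalIntegral.integral_of_le hT, ofReal_integral_eq_lintegral_ofReal hi (Eventually.of_forall fun t => pow_nonneg (LV_nn hH t) _)]
  refine lintegral_congr fun t => ?_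
  rw [LV_of hV hβ hH, ENNReal.ofReal_pow (LV_nn hH t)]

/-- everything together -/
theorem fin {β : ℝ} (hβ : 0 < β) (n B : ℕ) : ∃ (A : ℕ) (c C D : ℝ), 0 < c ∧ 0 < C ∧ 0 < D ∧ ∀ᶠ T : ℝ in atTop,
    (∀ H : ℝ, C * Real.log (Real.log T) / Real.log T ≤ H → H ≤ 1 →
      c * Ax n β (C * Real.log (Real.log T) / Real.log T) H * T ≤ ∫ t in (0:ℝ)..T, LZ (1 / 2) β H t ^ (n + 1)) ∧
    ∀ δ : ℝ, C * Real.log (Real.log T) / Real.log T ≤ δ → δ ≤ 1 / 16 →
      (∀ h : ℝ, |h| ≤ 1 → (volume (Set.Ioc 0 T \ {t | (Real.log T ^ A)⁻¹ < zn (1 / 2 + δ) (t + h) ∧ zn (1 / 2 + δ) (t + h) < Real.log T ^ A})).toReal ≤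
        T / Real.log T ^ B) ∧
      ∀ H : ℝ, δ ≤ H → H ≤ 1 →
        c * Ax n β δ H * T ≤ ∫ t in (0:ℝ)..T, LV (Real.log T ^ A) (1 / 2 + δ) β H t ^ (n + 1) ∧
        ∫ t in (0:ℝ)..T, LV (Real.log T ^ A) (1 / 2 + δ) β H t ^ (n + 1) ≤ ∫ t in (0:ℝ)..T, LZ (1 / 2 + δ) β H t ^ (n + 1) ∧
        (((n:ℝ) + 1) * β ^ 2 ≠ 1 → ∫ t in (0:ℝ)..T, LV (Real.log T ^ A) (1 / 2 + δ) β H t ^ (n + 1) ≤ D * Ax n β δ H * T) ∧
        (((n:ℝ) + 1) * β ^ 2 ≠ 1 → ((n:ℝ) + 1) * β < 2 → ∫ t in (0:ℝ)..T, LZ (1 / 2 + δ) β H t ^ (n + 1) ≤ D * Ax n β δ H * T) := by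
  obtain ⟨A, C1, D1, T0, hC1, hD1, hnl⟩ := nlm hβ n B
  obtain ⟨c2, C2, hc2, hC2, hon⟩ := onl hβ n
  obtain ⟨c3, C3, D3, hc3, hC3, hD3, hun⟩ := nlr hβ n
  obtain ⟨C, hC⟩ : ∃ C : ℝ, C = max C1 (max C2 C3) := ⟨_, rfl⟩
  have hCC1 : C1 ≤ C := by rw [hC]; exact le_max_left _ _
  have hCC2 : C2 ≤ C := by rw [hC]; exact (le_max_left _ _).trans (le_max_right _ _)
  have hCC3 : C3 ≤ C := by rw [hC]; exact (le_max_right _ _).trans (le_max_right _ _)
  refine ⟨A, min c2 D1⁻¹, C, max D1 D3, lt_min hc2 (by positivity), by linarith, lt_max_of_lt_left hD1, ?_⟩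
  filter_upwards [eventually_ge_atTop T0, hon C hCC2, hun, eventually_gt_atTop (Real.exp 3)] with T hT0 honT hunT hTe
  have hT : 0 < T := (Real.exp_pos _).trans hTe
  have hL : 3 < Real.log T := by
    have := Real.log_lt_log (Real.exp_pos _) hTe
    rwa [Real.log_exp] at this
  have hll : 0 < Real.log (Real.log T) := Real.log_pos (by linarith)
  have hq : ∀ x : ℝ, x ≤ C → x * Real.log (Real.log T) / Real.log T ≤ C * Real.log (Real.log T) / Real.log T := fun x hx =>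
    div_le_div_of_nonneg_right (mul_le_mul_of_nonneg_right hx hll.le) (by linarith)
  have hC0 : 0 < C := by linarith
  refine ⟨fun H hH hH1 => ?_, fun δ hδ hδ1 => ?_⟩
  · have h1 := honT H hH hH1
    have hℓ : 0 < C * Real.log (Real.log T) / Real.log T := by positivity
    have hA := Ax_pos (n := n) (β := β) hℓ (show 0 < H by linarith)
    refine le_trans ?_ h1
    gcongr
    exact min_le_left _ _
  · obtain ⟨_, _, h2⟩ := hnl T hT0
    obtain ⟨hδ0, h2δ, hbad, h3⟩ := h2 δ ((hq _ hCC1).trans hδ) hδ1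
    refine ⟨fun h hh => ?_, fun H hH hH1 => ?_⟩
    · have := hbad h hh
      simpa only [Zh_zn] using this
    · have hH0 : 0 < H := by linarith
      have hV : 0 ≤ Real.log T ^ A := by positivity
      have hA := Ax_pos (n := n) (β := β) hδ0 hH0
      obtain ⟨h4, h5⟩ := h3 H hH hH1
      obtain ⟨h6, h7⟩ := hunT δ ((hq _ hCC3).trans hδ) hδ1 H hH hH1
      rw [MT_int hV hβ hδ1 hH0.le hT.le] at h4 h5
      have hJ : 0 ≤ ∫ t in (0:ℝ)..T, LV (Real.log T ^ A) (1 / 2 + δ) β H t ^ (n + 1) :=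
        intervalIntegral.integral_nonneg hT.le fun t _ => pow_nonneg (LV_nn hH0.le t) _
      have hσ : 1 / 2 + δ < 1 := by linarith
      have hc : Continuous fun t : ℝ => LZ (1 / 2 + δ) β H t ^ (n + 1) := (LZ_cont hσ hβ H).pow _
      refine ⟨?_, ?_, fun hne => ?_, fun hne hlt => ?_⟩
      · refine le_trans ?_ ((ENNReal.ofReal_le_ofReal_iff hJ).mp h4)
        gcongr
        exact min_le_right _ _
      · refine intervalIntegral.integral_mono_on hT.le (LV_int T hV hβ hδ1 hH0.le n) (hc.intervalIntegrable _ _) fun t _ => ?_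
        exact pow_le_pow_left₀ (LV_nn hH0.le t) (LV_le hV hβ hδ1 hH0.le t) _
      · refine ((ENNReal.ofReal_le_ofReal_iff (by positivity)).mp (h5 hne)).trans ?_
        gcongr
        exact le_max_left _ _
      · refine (h7 hne hlt).trans ?_
        gcongr
        exact le_max_right _ _

end

end Pool.Agent.X111.MO
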