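import Pool.Agent.X111.MO.Dm
import Pool.Agent.X111.MS.Up

set_option autoImplicit false
set_option linter.unusedSectionVars false

/-! Multiple integrals. -/

namespace Pool.Agent.X111.MO

open Finset MeasureTheory Filter Topology

noncomputable section

section

variable {n : ℕ} (μ : Measure ℝ) [SigmaFinite μ]

/-- the splitting of one coordinate -/
def se (i : Fin (n + 1)) (z : ℝ × (Fin n → ℝ)) : Fin (n + 1) → ℝ := (MeasurableEquiv.piFinSuccAbove (fun _ => ℝ) i).symm z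

lemma se_same (i : Fin (n + 1)) (x : ℝ) (r : Fin n → ℝ) : se i (x, r) i = x := by
  unfold se
  simp [MeasurableEquiv.piFinSuccAbove_symm_apply]

lemma se_above (i : Fin (n + 1)) (x : ℝ) (r : Fin n → ℝ) (j : Fin n) : se i (x, r) (i.succAbove j) = r j := by
  unfold se
  simp [MeasurableEquiv.piFinSuccAbove_symm_apply]

lemma lint_split (i : Fin (n + 1)) {Φ : (Fin (n + 1) → ℝ) → ENNReal} (hΦ : Measurable Φ) :
    ∫⁻ h, Φ h ∂(Measure.pi fun _ => μ) = ∫⁻ x, ∫⁻ r, Φ (se i (x, r)) ∂(Measure.pi fun _ => μ) ∂μ := by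
  have h1 := (measurePreserving_piFinSuccAbove (α := fun _ : Fin (n + 1) => ℝ) (fun _ => μ) i).symm
  have h2 : Measurable fun z : ℝ × (Fin n → ℝ) => Φ (se i z) := hΦ.comp h1.measurable
  rw [← h1.lintegral_comp hΦ]
  exact lintegral_prod _ h2.aemeasurable

lemma lint_pi {f : ℝ → ENNReal} (hf : Measurable f) (n : ℕ) : ∫⁻ x : Fin n → ℝ, ∏ i, f (x i) ∂(Measure.pi fun _ => μ) = (∫⁻ x, f x ∂μ) ^ n := by
  induction n with
  | zero => simp [Measure.pi_empty_univ]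
  | succ n ih =>
    have hm : ∀ n : ℕ, Measurable fun x : Fin n → ℝ => ∏ i, f (x i) := fun n => Finset.measurable_fun_prod _ fun i _ => hf.comp (measurable_pi_apply i)
    rw [lint_split μ 0 (hm (n + 1))]
    have h1 : ∀ (x : ℝ) (r : Fin n → ℝ), ∏ i, f (se 0 (x, r) i) = f x * ∏ j, f (r j) := by
      intro x r
      rw [Fin.prod_univ_succAbove _ 0, se_same]
      simp only [se_above]
    simp only [h1]
    have h2 : ∀ x : ℝ, ∫⁻ r : Fin n → ℝ, f x * ∏ j, f (r j) ∂(Measure.pi fun _ => μ) = f x * (∫⁻ x, f x ∂μ) ^ n := by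
      intro x
      rw [lintegral_const_mul _ (hm n), ih]
    simp only [h2]
    rw [lintegral_mul_const _ hf, pow_succ, mul_comm]

/-- the integral of a star -/
lemma key_up {g : ℝ → ENNReal} (hg : Measurable g) {G : ENNReal} (hG : ∀ᵐ x ∂μ, ∫⁻ r, g (x - r) ∂μ ≤ G) (i : Fin (n + 1)) :
    ∫⁻ h : Fin (n + 1) → ℝ, ∏ j, g (h i - h j) ∂(Measure.pi fun _ => μ) ≤ g 0 * G ^ n * μ Set.univ := by
  have hm : Measurable fun h : Fin (n + 1) → ℝ => ∏ j, g (h i - h j) :=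
    Finset.measurable_fun_prod _ fun j _ => hg.comp ((measurable_pi_apply i).sub (measurable_pi_apply j))
  rw [lint_split μ i hm]
  have h1 : ∀ (x : ℝ) (r : Fin n → ℝ), ∏ j, g (se i (x, r) i - se i (x, r) j) = g 0 * ∏ j, g (x - r j) := by
    intro x r
    rw [Fin.prod_univ_succAbove _ i, se_same, sub_self]
    simp only [se_above]
  simp only [h1]
  have h2 : ∀ x : ℝ, ∫⁻ r : Fin n → ℝ, g 0 * ∏ j, g (x - r j) ∂(Measure.pi fun _ => μ) = g 0 * (∫⁻ r, g (x - r) ∂μ) ^ n := by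
    intro x
    have hm2 : Measurable fun r : ℝ => g (x - r) := hg.comp (measurable_const.sub measurable_id)
    have hm3 : Measurable fun r : Fin n → ℝ => ∏ j, g (x - r j) := Finset.measurable_fun_prod _ fun j _ => hm2.comp (measurable_pi_apply j)
    rw [lintegral_const_mul _ hm3, lint_pi μ hm2]
  simp only [h2]
  calc ∫⁻ x, g 0 * (∫⁻ r, g (x - r) ∂μ) ^ n ∂μ ≤ ∫⁻ _x, g 0 * G ^ n ∂μ := by
        refine lintegral_mono_ae ?_
        filter_upwards [hG] with x hx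
        gcongr
    _ = _ := by rw [lintegral_const]

end

/-- the majorant -/
def mx (δ γ u : ℝ) : ℝ := (max (2 * δ) u) ^ (-γ)

lemma mx_cont {δ : ℝ} (hδ : 0 < δ) (γ : ℝ) : Continuous (mx δ γ) := by
  unfold mx
  refine Continuous.rpow_const (by fun_prop) fun u => Or.inl ?_
  have : 0 < max (2 * δ) u := lt_max_of_lt_left (by linarith)
  exact this.ne'

lemma mx_nn {δ : ℝ} (hδ : 0 < δ) (γ u : ℝ) : 0 ≤ mx δ γ u := Real.rpow_nonneg (le_max_of_le_left (by linarith)) _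

lemma xx_mx {δ : ℝ} (hδ : 0 < δ) {γ : ℝ} (hγ : 0 ≤ γ) (u : ℝ) : xx δ u ^ (-γ) ≤ mx δ γ |u| := by
  unfold mx
  refine Real.rpow_le_rpow_of_nonpos (lt_max_of_lt_left (by linarith)) (max_le (xx_ge1 hδ.le u) (xx_ge2 δ u)) (by linarith)

/-- one-sided integral, exponent above one -/
lemma J_gt {δ H γ : ℝ} (hδ : 0 < δ) (hH : δ ≤ H) (hγ : 1 < γ) : ∫ u in (0:ℝ)..(2 * H), mx δ γ u ≤ γ / (γ - 1) * (2 * δ) ^ (1 - γ) := by
  have hc := mx_cont hδ γ
  rw [← intervalIntegral.integral_add_adjacent_intervals (b := 2 * δ) (hc.intervalIntegrable _ _) (hc.intervalIntegrable _ _)]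
  have h2δ : 0 < 2 * δ := by linarith
  have h1 : ∫ u in (0:ℝ)..(2 * δ), mx δ γ u = (2 * δ) ^ (1 - γ) := by
    have h2 : ∫ u in (0:ℝ)..(2 * δ), mx δ γ u = ∫ _u in (0:ℝ)..(2 * δ), (2 * δ) ^ (-γ) := by
      refine intervalIntegral.integral_congr fun u hu => ?_
      rw [Set.uIcc_of_le (by linarith)] at hu
      show mx δ γ u = _
      unfold mx
      rw [max_eq_left hu.2]
    rw [h2, intervalIntegral.integral_const, sub_zero, smul_eq_mul, ← Real.rpow_one_add' h2δ.le (by linarith)]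
    congr 1
  have h2 : ∫ u in (2 * δ)..(2 * H), mx δ γ u ≤ 1 / (γ - 1) * (2 * δ) ^ (1 - γ) := by
    have h3 : ∫ u in (2 * δ)..(2 * H), mx δ γ u = ∫ u in (2 * δ)..(2 * H), u ^ (-γ) := by
      refine intervalIntegral.integral_congr fun u hu => ?_
      rw [Set.uIcc_of_le (by linarith)] at hu
      show mx δ γ u = _
      unfold mx
      rw [max_eq_right hu.1]
    rw [h3, integral_rpow (Or.inr ⟨by linarith, by
      rw [Set.uIcc_of_le (by linarith)]
      exact fun h => absurd h.1 (by linarith)⟩)]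
    have h4 : 0 ≤ (2 * H) ^ (-γ + 1) := Real.rpow_nonneg (by linarith) _
    have h5 : ((2 * H) ^ (-γ + 1) - (2 * δ) ^ (-γ + 1)) / (-γ + 1) = ((2 * δ) ^ (-γ + 1) - (2 * H) ^ (-γ + 1)) / (γ - 1) := by
      rw [← neg_div_neg_eq]
      congr 1 <;> ring
    rw [h5, one_div, ← div_eq_inv_mul, show 1 - γ = -γ + 1 by ring]
    exact div_le_div_of_nonneg_right (by linarith) (by linarith)
  rw [h1]
  have h6 : γ / (γ - 1) * (2 * δ) ^ (1 - γ) = (2 * δ) ^ (1 - γ) + 1 / (γ - 1) * (2 * δ) ^ (1 - γ) := by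
    have : γ - 1 ≠ 0 := by linarith
    field_simp
    ring
  rw [h6]
  linarith

/-- one-sided integral, exponent below one -/
lemma J_lt {δ H γ : ℝ} (hδ : 0 < δ) (hH : 0 < H) (hγ0 : 0 ≤ γ) (hγ : γ < 1) : ∫ u in (0:ℝ)..(2 * H), mx δ γ u ≤ 1 / (1 - γ) * (2 * H) ^ (1 - γ) := by
  have hc := mx_cont hδ γ
  have h1 : ∫ u in (0:ℝ)..(2 * H), mx δ γ u ≤ ∫ u in (0:ℝ)..(2 * H), u ^ (-γ) := by
    refine intervalIntegral.integral_mono_on_of_le_Ioo (by linarith) (hc.intervalIntegrable _ _) (intervalIntegral.intervalIntegrable_rpow' (by linarith)) fun u hu => ?_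
    unfold mx
    exact Real.rpow_le_rpow_of_nonpos hu.1 (le_max_right _ _) (by linarith)
  refine h1.trans (le_of_eq ?_)
  rw [integral_rpow (Or.inl (by linarith)), Real.zero_rpow (by linarith), sub_zero, show -γ + 1 = 1 - γ by ring]
  ring

/-- the constant -/
def GJ (γ δ H : ℝ) : ℝ := if 1 < γ then γ / (γ - 1) * (2 * δ) ^ (1 - γ) else 1 / (1 - γ) * (2 * H) ^ (1 - γ)

lemma J_le {δ H γ : ℝ} (hδ : 0 < δ) (hH : δ ≤ H) (hγ0 : 0 ≤ γ) (hγ : γ ≠ 1) : ∫ u in (0:ℝ)..(2 * H), mx δ γ u ≤ GJ γ δ H := by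
  unfold GJ
  split_ifs with h
  · exact J_gt hδ hH h
  · exact J_lt hδ (by linarith) hγ0 (lt_of_le_of_ne (not_lt.mp h) hγ)

lemma GJ_nn {δ H γ : ℝ} (hδ : 0 < δ) (hH : δ ≤ H) (hγ0 : 0 ≤ γ) (hγ : γ ≠ 1) : 0 ≤ GJ γ δ H :=
  le_trans (intervalIntegral.integral_nonneg (by linarith) fun u _ => mx_nn hδ γ u) (J_le hδ hH hγ0 hγ)

/-- the sliding integral -/
lemma slide {δ H γ : ℝ} (hδ : 0 < δ) (hH : δ ≤ H) (hγ0 : 0 ≤ γ) (hγ : γ ≠ 1) {x : ℝ} (hx : x ∈ Set.Ioc (-H) H) :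
    ∫⁻ r in Set.Ioc (-H) H, ENNReal.ofReal (xx δ (x - r) ^ (-γ)) ≤ ENNReal.ofReal (2 * GJ γ δ H) := by
  have hH0 : 0 < H := by linarith
  have hc := mx_cont hδ γ
  have h1 : ∫⁻ r in Set.Ioc (-H) H, ENNReal.ofReal (xx δ (x - r) ^ (-γ)) ≤ ∫⁻ r in Set.Ioc (-H) H, ENNReal.ofReal (mx δ γ |r + -x|) := by
    refine lintegral_mono fun r => ENNReal.ofReal_le_ofReal ?_
    have h2 := xx_mx hδ hγ0 (x - r)
    rwa [abs_sub_comm, sub_eq_add_neg] at h2
  refine h1.trans ?_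
  have h2 : ∫⁻ r in Set.Ioc (-H) H, ENNReal.ofReal (mx δ γ |r + -x|) = ∫⁻ r in Set.Ioc (-H) H, (fun s => ENNReal.ofReal (mx δ γ |s|)) (-x + r) := by
    refine lintegral_congr fun r => ?_
    rw [add_comm]
  rw [h2, Pool.Agent.X111.MS.tr_set (fun s => ENNReal.ofReal (mx δ γ |s|)) (-H) H (-x)]
  have hca : Continuous fun u : ℝ => mx δ γ |u| := hc.comp continuous_abs
  calc ∫⁻ s in Set.Ioc (-x + -H) (-x + H), ENNReal.ofReal (mx δ γ |s|) ≤ ∫⁻ s in Set.Ioc (-(2 * H)) (2 * H), ENNReal.ofReal (mx δ γ |s|) :=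
        lintegral_mono_set (Set.Ioc_subset_Ioc (by linarith [hx.2]) (by linarith [hx.1]))
    _ = ENNReal.ofReal (∫ s in (-(2 * H))..(2 * H), mx δ γ |s|) := by
        rw [intervalIntegral.integral_of_le (by linarith), ofReal_integral_eq_lintegral_ofReal (hca.integrableOn_Icc.mono_set Set.Ioc_subset_Icc_self)
          (Eventually.of_forall fun s => mx_nn hδ γ _)]
    _ ≤ ENNReal.ofReal (2 * GJ γ δ H) := by
        refine ENNReal.ofReal_le_ofReal ?_
        rw [← intervalIntegral.integral_add_adjacent_intervals (b := 0) (hca.intervalIntegrable _ _) (hca.intervalIntegrable _ _)]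
        have h3 : ∫ s in (-(2 * H))..0, mx δ γ |s| = ∫ s in (0:ℝ)..(2 * H), mx δ γ |s| := by
          have h4 := intervalIntegral.integral_comp_neg (a := 0) (b := 2 * H) (fun s => mx δ γ |s|)
          simp only [abs_neg, neg_zero] at h4
          exact h4.symm
        have h4 : ∫ s in (0:ℝ)..(2 * H), mx δ γ |s| = ∫ s in (0:ℝ)..(2 * H), mx δ γ s := by
          refine intervalIntegral.integral_congr fun s hs => ?_
          rw [Set.uIcc_of_le (by linarith)] at hs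
          show mx δ γ |s| = _
          rw [abs_of_nonneg hs.1]
        rw [h3, h4]
        have := J_le hδ hH hγ0 hγ
        linarith

end

end Pool.Agent.X111.MO
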