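import Pool.Agent.X111.MO.Ton

set_option autoImplicit false
set_option linter.unusedSectionVars false

/-! Moments of moments next to the line, truncated. -/

namespace Pool.Agent.X111.MO

open Finset MeasureTheory Filter Topology
open Pool.Agent.X110.RR (GS GS_meas)
open Pool.Agent.X111.MS (DG DG_ge JI jm Mz)
open Pool.Agent.Y746.OA (sp)

noncomputable section

/-- the expected order -/
def Ax (n : ℕ) (β δ H : ℝ) : ℝ :=
  max (H * δ ^ ((n : ℝ) - ((n:ℝ) + 1) ^ 2 * β ^ 2)) (H ^ ((n:ℝ) + 1 - ((n:ℝ) + 1) * n * β ^ 2) * δ ^ (-(((n:ℝ) + 1) * β ^ 2)))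

lemma Ax_pos {n : ℕ} {β δ H : ℝ} (hδ : 0 < δ) (hH : 0 < H) : 0 < Ax n β δ H := lt_max_of_lt_left (by positivity)

/-- the upper bound with the order -/
lemma PX_upA {n : ℕ} {β : ℝ} (hγ : ((n:ℝ) + 1) * β ^ 2 ≠ 1) : ∃ C : ℝ, 0 < C ∧ ∀ δ H : ℝ, 0 < δ → δ ≤ H →
    ∫⁻ h, ENNReal.ofReal (PX (β ^ 2) δ h) ∂(mp (n + 1) H) ≤ ENNReal.ofReal (C * Ax n β δ H) := by
  obtain ⟨g, hg⟩ : ∃ g : ℝ, g = ((n:ℝ) + 1) * β ^ 2 := ⟨_, rfl⟩
  have hg0 : 0 ≤ g := by rw [hg]; positivity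
  rw [← hg] at hγ
  have hgn : ((n + 1 : ℕ) : ℝ) * β ^ 2 = g := by rw [hg]; push_cast; ring
  rcases lt_or_gt_of_ne hγ with h1 | h1
  · have h1g : 0 < 1 - g := by linarith
    refine ⟨((n:ℝ) + 1) * 2 ^ (-g) * (2 * (1 / (1 - g) * 2 ^ (1 - g))) ^ n * 2, by positivity, fun δ H hδ hH => ?_⟩
    have hH0 : 0 < H := by linarith
    have h2 := PX_up (n := n) (γ := β ^ 2) hδ hH (sq_nonneg β) (by rw [hgn]; exact hγ)
    rw [hgn] at h2
    refine h2.trans (ENNReal.ofReal_le_ofReal ?_)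
    have e1 : GJ g δ H = 1 / (1 - g) * (2 * H) ^ (1 - g) := by
      unfold GJ
      rw [if_neg (by linarith)]
    have e2 : H ^ ((n:ℝ) + 1 - ((n:ℝ) + 1) * n * β ^ 2) = (H ^ (1 - g)) ^ n * H := by
      rw [← Real.rpow_natCast (H ^ (1 - g)) n, ← Real.rpow_mul hH0.le, ← Real.rpow_add_one hH0.ne']
      congr 1
      rw [hg]
      ring
    have e3 : δ ^ (-(((n:ℝ) + 1) * β ^ 2)) = δ ^ (-g) := by rw [hg]
    have h3 : H ^ ((n:ℝ) + 1 - ((n:ℝ) + 1) * n * β ^ 2) * δ ^ (-(((n:ℝ) + 1) * β ^ 2)) ≤ Ax n β δ H := le_max_right _ _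
    rw [e2, e3] at h3
    rw [e1, Real.mul_rpow (by norm_num) hδ.le, Real.mul_rpow (by norm_num) hH0.le]
    calc ((n + 1 : ℕ) : ℝ) * (2 ^ (-g) * δ ^ (-g) * (2 * (1 / (1 - g) * (2 ^ (1 - g) * H ^ (1 - g)))) ^ n * (2 * H)) =
          ((n:ℝ) + 1) * 2 ^ (-g) * (2 * (1 / (1 - g) * 2 ^ (1 - g))) ^ n * 2 * ((H ^ (1 - g)) ^ n * H * δ ^ (-g)) := by
            have e4 : 2 * (1 / (1 - g) * (2 ^ (1 - g) * H ^ (1 - g))) = 2 * (1 / (1 - g) * 2 ^ (1 - g)) * H ^ (1 - g) := by ring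
            rw [e4, mul_pow]
            push_cast
            ring
      _ ≤ _ := mul_le_mul_of_nonneg_left h3 (by positivity)
  · have h1g : 0 < g - 1 := by linarith
    refine ⟨((n:ℝ) + 1) * 2 ^ (-g) * (2 * (g / (g - 1) * 2 ^ (1 - g))) ^ n * 2, by positivity, fun δ H hδ hH => ?_⟩
    have hH0 : 0 < H := by linarith
    have h2 := PX_up (n := n) (γ := β ^ 2) hδ hH (sq_nonneg β) (by rw [hgn]; exact hγ)
    rw [hgn] at h2
    refine h2.trans (ENNReal.ofReal_le_ofReal ?_)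
    have e1 : GJ g δ H = g / (g - 1) * (2 * δ) ^ (1 - g) := by
      unfold GJ
      rw [if_pos h1]
    have e2 : δ ^ ((n:ℝ) - ((n:ℝ) + 1) ^ 2 * β ^ 2) = (δ ^ (1 - g)) ^ n * δ ^ (-g) := by
      rw [← Real.rpow_natCast (δ ^ (1 - g)) n, ← Real.rpow_mul hδ.le, ← Real.rpow_add hδ]
      congr 1
      rw [hg]
      ring
    have h3 : H * δ ^ ((n:ℝ) - ((n:ℝ) + 1) ^ 2 * β ^ 2) ≤ Ax n β δ H := le_max_left _ _
    rw [e2] at h3
    rw [e1, Real.mul_rpow (by norm_num) hδ.le, Real.mul_rpow (by norm_num) hδ.le]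
    calc ((n + 1 : ℕ) : ℝ) * (2 ^ (-g) * δ ^ (-g) * (2 * (g / (g - 1) * (2 ^ (1 - g) * δ ^ (1 - g)))) ^ n * (2 * H)) =
          ((n:ℝ) + 1) * 2 ^ (-g) * (2 * (g / (g - 1) * 2 ^ (1 - g))) ^ n * 2 * (H * ((δ ^ (1 - g)) ^ n * δ ^ (-g))) := by
            have e4 : 2 * (g / (g - 1) * (2 ^ (1 - g) * δ ^ (1 - g))) = 2 * (g / (g - 1) * 2 ^ (1 - g)) * δ ^ (1 - g) := by ring
            rw [e4, mul_pow]
            push_cast
            ring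
      _ ≤ _ := mul_le_mul_of_nonneg_left h3 (by positivity)

/-- the lower bound with the order -/
lemma PX_loA (n : ℕ) (β : ℝ) : ∃ c : ℝ, 0 < c ∧ ∀ δ H : ℝ, 0 < δ → δ ≤ H →
    ENNReal.ofReal (c * Ax n β δ H) ≤ ∫⁻ h, ENNReal.ofReal (PX (β ^ 2) δ h) ∂(mp (n + 1) H) := by
  obtain ⟨c1, hc1⟩ : ∃ c1 : ℝ, c1 = 4 ^ (-(((n:ℝ) + 1) ^ 2 * β ^ 2)) * 2 := ⟨_, rfl⟩
  obtain ⟨c2, hc2⟩ : ∃ c2 : ℝ, c2 = 2 ^ (-(((n:ℝ) + 1) * β ^ 2)) * 4 ^ (-(((n:ℝ) + 1) * n * β ^ 2)) * 2 ^ (n + 1) := ⟨_, rfl⟩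
  have hc10 : 0 < c1 := by rw [hc1]; positivity
  have hc20 : 0 < c2 := by rw [hc2]; positivity
  refine ⟨min c1 c2, lt_min hc10 hc20, fun δ H hδ hH => ?_⟩
  have hH0 : 0 < H := by linarith
  have h1 := PX_lo1 (n := n) (γ := β ^ 2) hδ hH (sq_nonneg β)
  have h2 := PX_lo2 (n := n) (γ := β ^ 2) hδ hH (sq_nonneg β)
  have e1 : (4 * δ) ^ (-(((n + 1 : ℕ):ℝ) * (n + 1 : ℕ) * β ^ 2)) * δ ^ n * (2 * H) = c1 * (H * δ ^ ((n : ℝ) - ((n:ℝ) + 1) ^ 2 * β ^ 2)) := by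
    rw [Real.mul_rpow (by norm_num) hδ.le, hc1]
    have e3 : ((n + 1 : ℕ):ℝ) * (n + 1 : ℕ) * β ^ 2 = ((n:ℝ) + 1) ^ 2 * β ^ 2 := by push_cast; ring
    have e4 : δ ^ ((n : ℝ) - ((n:ℝ) + 1) ^ 2 * β ^ 2) = δ ^ (-(((n:ℝ) + 1) ^ 2 * β ^ 2)) * δ ^ n := by
      rw [← Real.rpow_natCast δ n, ← Real.rpow_add hδ]
      congr 1
      ring
    rw [e3, e4]
    ring
  have e2 : (2 * δ) ^ (-(((n + 1 : ℕ):ℝ) * β ^ 2)) * (4 * H) ^ (-(((n + 1 : ℕ):ℝ) * n * β ^ 2)) * (2 * H) ^ (n + 1) =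
      c2 * (H ^ ((n:ℝ) + 1 - ((n:ℝ) + 1) * n * β ^ 2) * δ ^ (-(((n:ℝ) + 1) * β ^ 2))) := by
    rw [Real.mul_rpow (by norm_num) hδ.le, Real.mul_rpow (by norm_num) hH0.le, mul_pow, hc2]
    have e3 : H ^ ((n:ℝ) + 1 - ((n:ℝ) + 1) * n * β ^ 2) = H ^ (-(((n:ℝ) + 1) * n * β ^ 2)) * H ^ (n + 1) := by
      rw [← Real.rpow_natCast H (n + 1), ← Real.rpow_add hH0]
      congr 1
      push_cast
      ring
    have e5 : ((n + 1 : ℕ):ℝ) = (n:ℝ) + 1 := by push_cast; ring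
    rw [e3, e5]
    ring
  rw [e1] at h1
  rw [e2] at h2
  unfold Ax
  rcases le_total (H * δ ^ ((n : ℝ) - ((n:ℝ) + 1) ^ 2 * β ^ 2)) (H ^ ((n:ℝ) + 1 - ((n:ℝ) + 1) * n * β ^ 2) * δ ^ (-(((n:ℝ) + 1) * β ^ 2))) with h3 | h3
  · rw [max_eq_right h3]
    refine le_trans (ENNReal.ofReal_le_ofReal ?_) h2
    exact mul_le_mul_of_nonneg_right (min_le_right _ _) (by positivity)
  · rw [max_eq_left h3]
    refine le_trans (ENNReal.ofReal_le_ofReal ?_) h1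
    exact mul_le_mul_of_nonneg_right (min_le_left _ _) (by positivity)

lemma mp_mem {q : ℕ} (H : ℝ) : ∀ᵐ h ∂(mp q H), ∀ j, h j ∈ Set.Ioc (-H) H := by
  have h1 : mp q H = (Measure.pi fun _ : Fin q => (volume : Measure ℝ)).restrict (Set.pi Set.univ fun _ => Set.Ioc (-H) H) :=
    (Measure.restrict_pi_pi _ _).symm
  rw [h1]
  filter_upwards [ae_restrict_mem (MeasurableSet.univ_pi fun _ => measurableSet_Ioc)] with h hh j
  exact hh j (Set.mem_univ j)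

/-- the truncated moments of moments -/
def MT (n : ℕ) (V β δ H T : ℝ) : ENNReal := ∫⁻ t in Set.Ioc 0 T, (∫⁻ h in Set.Ioc (-H) H, ff δ V β (t, h)) ^ (n + 1)

/-- moments of moments next to the line -/
theorem nlm {β : ℝ} (hβ : 0 < β) (n : ℕ) : ∀ B : ℕ, ∃ (A : ℕ) (C D T0 : ℝ), 0 < C ∧ 0 < D ∧ ∀ T : ℝ, T0 ≤ T → 4 ≤ T ∧ 24 ≤ Real.log T ∧
    ∀ δ : ℝ, C * Real.log (Real.log T) / Real.log T ≤ δ → δ ≤ 1 / 16 → 0 < δ ∧ 2 / δ ≤ Real.log T ∧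
    (∀ h : ℝ, |h| ≤ 1 → (volume (Set.Ioc 0 T \ {t | (Real.log T ^ A)⁻¹ < Zh δ h t ∧ Zh δ h t < Real.log T ^ A})).toReal ≤ T / Real.log T ^ B) ∧
    ∀ H : ℝ, δ ≤ H → H ≤ 1 → ENNReal.ofReal (D⁻¹ * Ax n β δ H * T) ≤ MT n (Real.log T ^ A) β δ H T ∧
      (((n:ℝ) + 1) * β ^ 2 ≠ 1 → MT n (Real.log T ^ A) β δ H T ≤ ENNReal.ofReal (D * Ax n β δ H * T)) := by
  intro B
  obtain ⟨K, hK⟩ : ∃ K : ℕ, β + 1 ≤ K := exists_nat_ge _
  have hK1 : 0 < (n + 1) * K := by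
    have : (0:ℝ) < K := by linarith
    have : 0 < K := by exact_mod_cast this
    positivity
  have hβK : |β| ≤ K := by rw [abs_of_pos hβ]; linarith
  obtain ⟨c0, hc0, hjm⟩ := jm (n + 1) K
  obtain ⟨A, C1, T1, hC1, h2⟩ := hjm B
  obtain ⟨C2, hC2, hdg⟩ := dgq (n + 1) K hK1
  obtain ⟨c3, hc3, hlo⟩ := PX_loA n β
  obtain ⟨C4, hC4, hup⟩ : ∃ C : ℝ, 0 < C ∧ (((n:ℝ) + 1) * β ^ 2 ≠ 1 → ∀ δ H : ℝ, 0 < δ → δ ≤ H →
      ∫⁻ h, ENNReal.ofReal (PX (β ^ 2) δ h) ∂(mp (n + 1) H) ≤ ENNReal.ofReal (C * Ax n β δ H)) := by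
    by_cases h : ((n:ℝ) + 1) * β ^ 2 ≠ 1
    · obtain ⟨C, hC, h5⟩ := PX_upA h
      exact ⟨C, hC, fun _ => h5⟩
    · exact ⟨1, one_pos, fun h5 => absurd h5 h⟩
  obtain ⟨D, hD⟩ : ∃ D : ℝ, D = max (2 * C2 / c3) (2 * C2 * C4) := ⟨_, rfl⟩
  have hD1 : 2 * C2 / c3 ≤ D := by rw [hD]; exact le_max_left _ _
  have hD2 : 2 * C2 * C4 ≤ D := by rw [hD]; exact le_max_right _ _
  have hD0 : 0 < D := lt_of_lt_of_le (by positivity) hD1
  refine ⟨A, max C1 (A / c0), D, max T1 (Real.exp 24), lt_max_of_lt_left hC1, hD0, fun T hT => ?_⟩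
  have hT1 : T1 ≤ T := (le_max_left _ _).trans hT
  have hTe : Real.exp 24 ≤ T := (le_max_right _ _).trans hT
  have hTp : 0 < T := lt_of_lt_of_le (Real.exp_pos _) hTe
  have hL : 24 ≤ Real.log T := by
    have := Real.log_le_log (Real.exp_pos _) hTe
    rwa [Real.log_exp] at this
  have hT4 : 4 ≤ T := by linarith [Real.add_one_le_exp (24:ℝ)]
  refine ⟨hT4, hL, fun δ hδ hδ1 => ?_⟩
  have hll : 0 < Real.log (Real.log T) := Real.log_pos (by linarith)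
  have hq : ∀ x : ℝ, x ≤ max C1 (A / c0) → x * Real.log (Real.log T) / Real.log T ≤ δ := fun x hx =>
    (div_le_div_of_nonneg_right (mul_le_mul_of_nonneg_right hx hll.le) (by linarith)).trans hδ
  obtain ⟨_, _, hδ0, h2δ, h3⟩ := h2 T hT1 δ (hq _ (le_max_left _ _)) hδ1
  obtain ⟨V, hV⟩ : ∃ V : ℝ, V = Real.log T ^ A := ⟨_, rfl⟩
  have hVT : V ≤ T ^ (c0 * δ) := by
    have h4 := hq _ (le_max_right _ _)
    rw [div_le_iff₀ (by linarith)] at h4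
    have h5 : (A:ℝ) * Real.log (Real.log T) ≤ c0 * δ * Real.log T := by
      have h6 : c0 * (A / c0 * Real.log (Real.log T)) ≤ c0 * (δ * Real.log T) := mul_le_mul_of_nonneg_left h4 hc0.le
      have h7 : c0 * (A / c0 * Real.log (Real.log T)) = A * Real.log (Real.log T) := by field_simp
      linarith
    rw [hV, Real.rpow_def_of_pos hTp, ← Real.exp_log (show 0 < Real.log T ^ A by positivity), Real.log_pow]
    refine Real.exp_le_exp.mpr ?_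
    rw [mul_comm (Real.log T)]
    exact h5
  rw [← hV]
  have h4 := h3 V hV.ge hVT
  refine ⟨hδ0, h2δ, fun h hh => ?_, fun H hH hH1 => ?_⟩
  · have h5 := (h4 (wh fun _ : Fin (n + 1) => h) (fun _ => 0) (fun j => by
      rw [wh_re, wh_im]
      exact ⟨le_rfl, by linarith, hh⟩) (fun j => by rw [abs_zero]; exact Nat.cast_nonneg _)).2.2
    have e : GS δ V (wh fun _ : Fin (n + 1) => h) = {t | V⁻¹ < Zh δ h t ∧ Zh δ h t < V} := by
      ext t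
      constructor
      · intro ht
        exact ht 0
      · intro ht j
        exact ht
    rwa [e] at h5
  · have hbd : ∀ᵐ h ∂(mp (n + 1) H), ENNReal.ofReal (JI δ V T (wh h) fun _ => β) ≤ ENNReal.ofReal (2 * T * C2) * ENNReal.ofReal (PX (β ^ 2) δ h) ∧
        ENNReal.ofReal (T / (2 * C2)) * ENNReal.ofReal (PX (β ^ 2) δ h) ≤ ENNReal.ofReal (JI δ V T (wh h) fun _ => β) := by
      filter_upwards [mp_mem (q := n + 1) H] with h hh
      have hh1 : ∀ j, |h j| ≤ 1 := fun j => (abs_le.mpr ⟨(hh j).1.le, (hh j).2⟩).trans hH1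
      have h5 := h4 (wh h) (fun _ => β) (fun j => by
        rw [wh_re, wh_im]
        exact ⟨le_rfl, by linarith, hh1 j⟩) (fun _ => hβK)
      have h6 := hdg β h δ hβK hh1 hδ0 hδ1
      rw [← ENNReal.ofReal_mul (by positivity), ← ENNReal.ofReal_mul (by positivity)]
      constructor
      · refine ENNReal.ofReal_le_ofReal (h5.2.1.trans ?_)
        rw [mul_assoc (2 * T)]
        exact mul_le_mul_of_nonneg_left h6.2 (by positivity)
      · refine ENNReal.ofReal_le_ofReal (le_trans ?_ h5.1)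
        have h7 := mul_le_mul_of_nonneg_left h6.1 (show 0 ≤ T / 2 by positivity)
        calc T / (2 * C2) * PX (β ^ 2) δ h = T / 2 * (C2⁻¹ * PX (β ^ 2) δ h) := by field_simp
          _ ≤ _ := h7
          _ = _ := by ring
    have hPm := (PX_meas (q := n + 1) (β ^ 2) δ).ennreal_ofReal
    have hA := Ax_pos (n := n) (β := β) hδ0 (show 0 < H by linarith)
    unfold MT
    rw [ton hβ]
    constructor
    · refine le_trans ?_ (lintegral_mono_ae (hbd.mono fun h hh => hh.2))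
      rw [lintegral_const_mul _ hPm]
      refine le_trans ?_ (mul_le_mul_right (hlo δ H hδ0 hH) _)
      rw [← ENNReal.ofReal_mul (by positivity)]
      refine ENNReal.ofReal_le_ofReal ?_
      have h7 : D⁻¹ ≤ c3 / (2 * C2) := by
        rw [inv_le_comm₀ hD0 (by positivity), inv_div]
        exact hD1
      calc D⁻¹ * Ax n β δ H * T ≤ c3 / (2 * C2) * Ax n β δ H * T := by gcongr
        _ = _ := by field_simp
    · intro hne
      refine (lintegral_mono_ae (hbd.mono fun h hh => hh.1)).trans ?_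
      rw [lintegral_const_mul _ hPm]
      refine (mul_le_mul_right (hup hne δ H hδ0 hH) _).trans ?_
      rw [← ENNReal.ofReal_mul (by positivity)]
      refine ENNReal.ofReal_le_ofReal ?_
      calc 2 * T * C2 * (C4 * Ax n β δ H) = (2 * C2 * C4) * Ax n β δ H * T := by ring
        _ ≤ _ := by gcongr

end

end Pool.Agent.X111.MO
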