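import Pool.Agent.X111.MO.Tr

set_option autoImplicit false
set_option linter.unusedSectionVars false

/-! Moments of moments on the critical line, lower bounds. -/

namespace Pool.Agent.X111.MO

open Finset MeasureTheory Filter Topology
open Pool.Agent.W184 (zn zn_nonneg zn_cont zn_le' KP KP_cont KP_nonneg KP_le KP_int)
open Pool.Agent.X111.MS (tr_set hp_one)

noncomputable section

/-- growth of the local moment -/
lemma ON_le {p H T : ℝ} (hp : 0 < p) (hH1 : H ≤ 1) (hT : 0 ≤ T) {t : ℝ} (ht0 : 0 ≤ t) (htT : t ≤ T) (w : ℝ) :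
    ON p H (t + w) ≤ ENNReal.ofReal (2 * (48 * (1 + T)) ^ p * (1 + w ^ 2) ^ p) := by
  unfold ON
  have hb : 0 ≤ 1 + w ^ 2 := by positivity
  have h1 : ∀ h ∈ Set.Ioc (-H) H, ENNReal.ofReal (zn (1 / 2) (t + w + h) ^ p) ≤ ENNReal.ofReal ((48 * (1 + T)) ^ p * (1 + w ^ 2) ^ p) := by
    intro h hh
    refine ENNReal.ofReal_le_ofReal ?_
    rw [← Real.mul_rpow (by positivity) hb]
    refine Real.rpow_le_rpow (zn_nonneg _ _) ?_ hp.le
    refine (zn_le' (by norm_num) (by norm_num)).trans ?_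
    have h2 : |t + w + h| ≤ T + |w| + 1 := by
      have h3 := abs_add_le (t + w) h
      have h4 := abs_add_le t w
      have h5 : |h| ≤ 1 := (abs_le.mpr ⟨hh.1.le, hh.2⟩).trans hH1
      rw [abs_of_nonneg ht0] at h4
      linarith
    have h3 := Pool.Agent.W184.one_add_abs_le w
    have h4 := abs_nonneg w
    nlinarith
  refine (setLIntegral_mono' measurableSet_Ioc h1).trans ?_
  rw [setLIntegral_const, Real.volume_Ioc, ← ENNReal.ofReal_mul (by positivity)]
  refine ENNReal.ofReal_le_ofReal ?_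
  have h2 : H - -H ≤ 2 := by linarith
  calc (48 * (1 + T)) ^ p * (1 + w ^ 2) ^ p * (H - -H) ≤ (48 * (1 + T)) ^ p * (1 + w ^ 2) ^ p * 2 := mul_le_mul_of_nonneg_left h2 (by positivity)
    _ = _ := by ring

/-- the transfer -/
theorem trm {β : ℝ} (hβ : 0 < β) (n : ℕ) : ∃ F C1 : ℝ, 0 < F ∧ 0 < C1 ∧ ∀ (T δ H V : ℝ), 16 ≤ T → 0 < δ → δ ≤ 1 / 32 → 0 ≤ H → H ≤ 1 →
    ENNReal.ofReal F * ∫⁻ t in Set.Ioc (T ^ (1 / 4 : ℝ)) (T - T ^ (1 / 4 : ℝ)), (∫⁻ h in Set.Ioc (-H) H, ff δ V β (t, h)) ^ (n + 1) ≤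
      (∫⁻ t in Set.Ioc 0 T, ON (2 * β) H t ^ (n + 1)) + ENNReal.ofReal C1 := by
  obtain ⟨p, hp⟩ : ∃ p : ℝ, p = 2 * β := ⟨_, rfl⟩
  have hp0 : 0 < p := by rw [hp]; linarith
  have hpb : p / 2 = β := by rw [hp]; ring
  obtain ⟨P, hP⟩ : ∃ P : ℝ, P = p * (n + 1) := ⟨_, rfl⟩
  have hP0 : 0 < P := by rw [hP]; positivity
  obtain ⟨m, hm⟩ : ∃ m : ℕ, (3 * P + 2) / p ≤ m := exists_nat_ge _
  have he : 3 * P + 2 ≤ m * p := by rwa [div_le_iff₀ hp0] at hm
  have hm1 : 1 ≤ m := by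
    by_contra hcon
    have : m = 0 := by omega
    rw [this] at he
    push_cast at he
    linarith
  obtain ⟨F0, hF0⟩ : ∃ F0 : ℝ, F0 = (3 / 4 / 2 ^ (2 * m)) ^ p := ⟨_, rfl⟩
  have hF0p : 0 < F0 := by rw [hF0]; positivity
  refine ⟨F0 ^ (n + 1), 2 ^ (n + 1) * 96 ^ P, by positivity, by positivity, fun T δ H V hT h0 h1 hH hH1 => ?_⟩
  have hT0 : 0 < T := by linarith
  rw [← hp]
  obtain ⟨U, hU⟩ : ∃ U : ℝ, U = T ^ (1 / 4 : ℝ) := ⟨_, rfl⟩
  have hU2 : 2 ≤ U := by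
    have h2 : (16:ℝ) ^ (1 / 4 : ℝ) ≤ T ^ (1 / 4 : ℝ) := Real.rpow_le_rpow (by norm_num) hT (by norm_num)
    have h3 : (16:ℝ) ^ (1 / 4 : ℝ) = 2 := by
      rw [show (16:ℝ) = 2 ^ (4:ℝ) by norm_num, ← Real.rpow_mul (by norm_num)]
      norm_num
    rw [hU]
    linarith
  have hU4 : U ^ 4 = T := by
    rw [hU, ← Real.rpow_natCast, ← Real.rpow_mul hT0.le]
    norm_num
  have hUT : 2 * U ≤ T := by
    rw [← hU4]
    have : U ^ 4 = U * (U * U * U) := by ring
    rw [this]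
    nlinarith [mul_le_mul hU2 hU2 (by norm_num) (by linarith), mul_pos (show 0 < U by linarith) (show 0 < U by linarith)]
  rw [← hU]
  obtain ⟨e, hee⟩ : ∃ e : ℝ, e = m * p := ⟨_, rfl⟩
  rw [← hee] at he
  have hb : ∀ w : ℝ, 1 ≤ 1 + w ^ 2 := fun w => by nlinarith [sq_nonneg w]
  obtain ⟨kp1, kp2⟩ := KP_int h0
  have hKPm : ∫⁻ w, ENNReal.ofReal (KP δ w) = 1 := by
    rw [← ofReal_integral_eq_lintegral_ofReal kp1 (Eventually.of_forall fun w => KP_nonneg h0 w), kp2, ENNReal.ofReal_one]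
  have hK1 : ∫⁻ w, KK δ e w ≤ 1 := by
    rw [← hKPm]
    refine lintegral_mono fun w => ?_
    unfold KK
    exact ENNReal.ofReal_le_ofReal (mul_le_of_le_one_right (KP_nonneg h0 w) (Real.rpow_le_one_of_one_le_of_nonpos (hb w) (by linarith)))
  have hFle : F0 ≤ ((1 - 8 * δ) / (1 + δ) ^ (2 * m)) ^ p := by
    rw [hF0]
    refine Real.rpow_le_rpow (by positivity) ?_ hp0.le
    have h3 : (1 + δ) ^ (2 * m) ≤ 2 ^ (2 * m) := pow_le_pow_left₀ (by linarith) (by linarith) _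
    exact div_le_div₀ (by linarith) (by linarith) (by positivity) h3
  have hONm := ON_meas p H
  have hKm := KK_meas δ e
  -- the pointwise inequality
  have hpt : ∀ t : ℝ, ENNReal.ofReal (F0 ^ (n + 1)) * (∫⁻ h in Set.Ioc (-H) H, ff δ V β (t, h)) ^ (n + 1) ≤ ∫⁻ w, KK δ e w * ON p H (t + w) ^ (n + 1) := by
    intro t
    have h2 := loc_pt (V := V) (H := H) hp0 hm1 h0 (by linarith) hF0p.le hFle t
    rw [hpb, ← hee] at h2
    have hmt : Measurable fun w => ON p H (t + w) := hONm.comp (measurable_const.add measurable_id)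
    calc ENNReal.ofReal (F0 ^ (n + 1)) * (∫⁻ h in Set.Ioc (-H) H, ff δ V β (t, h)) ^ (n + 1) =
          (ENNReal.ofReal F0 * ∫⁻ h in Set.Ioc (-H) H, ff δ V β (t, h)) ^ (n + 1) := by
            rw [mul_pow, ENNReal.ofReal_pow hF0p.le]
      _ ≤ (∫⁻ w, KK δ e w * ON p H (t + w)) ^ (n + 1) := by gcongr
      _ ≤ _ := jens hKm hmt hK1 n
  have hSm : Measurable fun t : ℝ => (∫⁻ h in Set.Ioc (-H) H, ff δ V β (t, h)) ^ (n + 1) := by
    have h3 : Measurable fun t : ℝ => ∫⁻ h in Set.Ioc (-H) H, ff δ V β (t, h) := (ff_meas2 δ V β).lintegral_prod_right'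
    exact h3.pow_const _
  have h5 : ENNReal.ofReal (F0 ^ (n + 1)) * ∫⁻ t in Set.Ioc U (T - U), (∫⁻ h in Set.Ioc (-H) H, ff δ V β (t, h)) ^ (n + 1) ≤
      ∫⁻ t in Set.Ioc U (T - U), ∫⁻ w, KK δ e w * ON p H (t + w) ^ (n + 1) := by
    rw [← lintegral_const_mul _ hSm]
    exact lintegral_mono hpt
  refine h5.trans ?_
  have hφm : Measurable fun w : ℝ => ENNReal.ofReal ((1 + w ^ 2) ^ P) := by
    have : Measurable fun w : ℝ => (1 + w ^ 2) ^ P := by fun_prop
    exact this.ennreal_ofReal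
  have h6 := avgL (K := KK δ e) (G := fun x => ON p H x ^ (n + 1)) (φ := fun w => ENNReal.ofReal ((1 + w ^ 2) ^ P)) hKm (hONm.pow_const _) hφm
    (a := U) (b := T - U) (U := U) (D := ENNReal.ofReal (2 ^ (n + 1) * (48 * (1 + T)) ^ P)) (fun t ht w => by
      have h7 := ON_le (p := p) (H := H) (T := T) hp0 hH1 hT0.le (t := t) (by linarith [ht.1]) (by linarith [ht.2]) w
      have hbw : 0 ≤ 1 + w ^ 2 := by positivity
      calc ON p H (t + w) ^ (n + 1) ≤ ENNReal.ofReal (2 * (48 * (1 + T)) ^ p * (1 + w ^ 2) ^ p) ^ (n + 1) := by gcongr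
        _ = ENNReal.ofReal (2 ^ (n + 1) * (48 * (1 + T)) ^ P) * ENNReal.ofReal ((1 + w ^ 2) ^ P) := by
          rw [← ENNReal.ofReal_pow (by positivity), ← ENNReal.ofReal_mul (by positivity), mul_pow, mul_pow, ← Real.rpow_natCast ((48 * (1 + T)) ^ p),
            ← Real.rpow_mul (by positivity), ← Real.rpow_natCast ((1 + w ^ 2) ^ p), ← Real.rpow_mul hbw, hP]
          push_cast
          rfl)
  refine h6.trans ?_
  rw [sub_self, sub_add_cancel]
  refine add_le_add (mul_le_of_le_one_left' hK1) ?_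
  -- the tail
  have htail : ∫⁻ w in {w : ℝ | U < |w|}, KK δ e w * ENNReal.ofReal ((1 + w ^ 2) ^ P) ≤ ENNReal.ofReal ((U ^ 2) ^ (P - e)) := by
    have hms : MeasurableSet {w : ℝ | U < |w|} := measurableSet_lt measurable_const measurable_abs
    calc ∫⁻ w in {w : ℝ | U < |w|}, KK δ e w * ENNReal.ofReal ((1 + w ^ 2) ^ P) ≤
          ∫⁻ w in {w : ℝ | U < |w|}, ENNReal.ofReal ((U ^ 2) ^ (P - e)) * ENNReal.ofReal (KP δ w) := by
            refine setLIntegral_mono' hms fun w hw => ?_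
            have hw' : U < |w| := hw
            have hbw : 0 < 1 + w ^ 2 := by positivity
            unfold KK
            rw [← ENNReal.ofReal_mul (mul_nonneg (KP_nonneg h0 w) (Real.rpow_nonneg hbw.le _)), ← ENNReal.ofReal_mul (by positivity)]
            refine ENNReal.ofReal_le_ofReal ?_
            rw [mul_assoc, ← Real.rpow_add hbw, mul_comm]
            refine mul_le_mul_of_nonneg_right ?_ (KP_nonneg h0 w)
            rw [show -e + P = P - e by ring]
            refine Real.rpow_le_rpow_of_nonpos (by positivity) ?_ (by linarith)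
            rw [← sq_abs w]
            nlinarith
      _ ≤ ∫⁻ w, ENNReal.ofReal ((U ^ 2) ^ (P - e)) * ENNReal.ofReal (KP δ w) := setLIntegral_le_lintegral _ _
      _ = _ := by rw [lintegral_const_mul' _ _ ENNReal.ofReal_ne_top, hKPm, mul_one]
  calc ENNReal.ofReal (T - U - U) * ENNReal.ofReal (2 ^ (n + 1) * (48 * (1 + T)) ^ P) * ∫⁻ w in {w : ℝ | U < |w|}, KK δ e w * ENNReal.ofReal ((1 + w ^ 2) ^ P) ≤
      ENNReal.ofReal T * ENNReal.ofReal (2 ^ (n + 1) * (96 * T) ^ P) * ENNReal.ofReal ((U ^ 2) ^ (P - e)) := by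
        refine mul_le_mul' (mul_le_mul' (ENNReal.ofReal_le_ofReal (by linarith)) (ENNReal.ofReal_le_ofReal ?_)) htail
        refine mul_le_mul_of_nonneg_left (Real.rpow_le_rpow (by linarith) (by linarith) hP0.le) (by positivity)
    _ = ENNReal.ofReal (T * (2 ^ (n + 1) * (96 * T) ^ P) * (U ^ 2) ^ (P - e)) := by
        rw [← ENNReal.ofReal_mul hT0.le, ← ENNReal.ofReal_mul (by positivity)]
    _ ≤ ENNReal.ofReal (2 ^ (n + 1) * 96 ^ P) := by
        refine ENNReal.ofReal_le_ofReal ?_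
        have e2 : U ^ 2 = T ^ (1 / 2 : ℝ) := by
          rw [hU, ← Real.rpow_natCast, ← Real.rpow_mul hT0.le]
          norm_num
        rw [e2, ← Real.rpow_mul hT0.le, Real.mul_rpow (by norm_num) hT0.le]
        have e3 : T * (2 ^ (n + 1) * (96 ^ P * T ^ P)) * T ^ (1 / 2 * (P - e)) = 2 ^ (n + 1) * 96 ^ P * T ^ (1 + P + 1 / 2 * (P - e)) := by
          rw [Real.rpow_add hT0, Real.rpow_add hT0, Real.rpow_one]
          ring
        rw [e3]
        refine mul_le_of_le_one_right (by positivity) ?_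
        exact Real.rpow_le_one_of_one_le_of_nonpos (by linarith) (by linarith)

end

end Pool.Agent.X111.MO
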