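import Pool.Agent.X111.MO.Onl
import Pool.Agent.X111.MS.On3

set_option autoImplicit false
set_option linter.unusedSectionVars false

/-! Moments of moments on the critical line, lower bounds: conclusion. -/

namespace Pool.Agent.X111.MO

open Finset MeasureTheory Filter Topology
open Pool.Agent.W184 (zn zn_nonneg zn_cont zn_le')
open Pool.Agent.X111.MS (ev_ll ev_edge)

noncomputable section

lemma Ax_ge {n : ℕ} {β δ H : ℝ} (hδ : 0 < δ) (hδ1 : δ ≤ 1) (hH : 0 < H) (hH1 : H ≤ 1) : H ^ (n + 1) ≤ Ax n β δ H := by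
  unfold Ax
  refine le_max_of_le_right ?_
  have h1 : H ^ ((n:ℝ) + 1 - ((n:ℝ) + 1) * n * β ^ 2) = H ^ (n + 1) * H ^ (-(((n:ℝ) + 1) * n * β ^ 2)) := by
    rw [← Real.rpow_natCast H (n + 1), ← Real.rpow_add hH]
    congr 1
    push_cast
    ring
  have h2 : 1 ≤ H ^ (-(((n:ℝ) + 1) * n * β ^ 2)) := Real.one_le_rpow_of_pos_of_le_one_of_nonpos hH hH1 (neg_nonpos.mpr (by positivity))
  have h3 : 1 ≤ δ ^ (-(((n:ℝ) + 1) * β ^ 2)) := Real.one_le_rpow_of_pos_of_le_one_of_nonpos hδ hδ1 (neg_nonpos.mpr (by positivity))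
  rw [h1, mul_assoc]
  exact le_mul_of_one_le_right (by positivity) (one_le_mul_of_one_le_of_one_le h2 h3)

/-- the local moments -/
def LM (β H s : ℝ) : ℝ := ∫ h in (-H)..H, zn (1 / 2) (s + h) ^ (2 * β)

lemma zp_cont {p : ℝ} (hp : 0 ≤ p) : Continuous fun t : ℝ => zn (1 / 2) t ^ p := (zn_cont (by norm_num)).rpow_const fun _ => Or.inr hp

lemma LM_cont {β : ℝ} (hβ : 0 < β) (H : ℝ) : Continuous (LM β H) := by
  unfold LM
  refine intervalIntegral.continuous_parametric_intervalIntegral_of_continuous' ?_ _ _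
  exact (zp_cont (by linarith)).comp (continuous_fst.add continuous_snd)

lemma LM_nn {β H : ℝ} (hH : 0 ≤ H) (s : ℝ) : 0 ≤ LM β H s :=
  intervalIntegral.integral_nonneg (by linarith) fun h _ => Real.rpow_nonneg (zn_nonneg _ _) _

lemma ON_LM {β H : ℝ} (hβ : 0 < β) (hH : 0 ≤ H) (s : ℝ) : ON (2 * β) H s = ENNReal.ofReal (LM β H s) := by
  unfold ON LM
  have hc : Continuous fun h : ℝ => zn (1 / 2) (s + h) ^ (2 * β) := (zp_cont (by linarith)).comp (continuous_const.add continuous_id)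
  rw [intervalIntegral.integral_of_le (by linarith), ofReal_integral_eq_lintegral_ofReal (hc.integrableOn_Icc.mono_set Set.Ioc_subset_Icc_self)
    (Eventually.of_forall fun h => Real.rpow_nonneg (zn_nonneg _ _) _)]

lemma ON_int {β H T : ℝ} (hβ : 0 < β) (hH : 0 ≤ H) (hT : 0 ≤ T) (n : ℕ) :
    ∫⁻ t in Set.Ioc 0 T, ON (2 * β) H t ^ (n + 1) = ENNReal.ofReal (∫ t in (0:ℝ)..T, LM β H t ^ (n + 1)) := by
  have hc : Continuous fun t : ℝ => LM β H t ^ (n + 1) := (LM_cont hβ H).pow _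
  rw [intervalIntegral.integral_of_le hT, ofReal_integral_eq_lintegral_ofReal (hc.integrableOn_Icc.mono_set Set.Ioc_subset_Icc_self)
    (Eventually.of_forall fun t => pow_nonneg (LM_nn hH t) _)]
  refine lintegral_congr fun t => ?_
  rw [ON_LM hβ hH, ENNReal.ofReal_pow (LM_nn hH t)]

lemma edge_le {n : ℕ} {δ V β H a b : ℝ} (hβ : 0 < β) (hV : 0 ≤ V) (hH1 : H ≤ 1) :
    ∫⁻ t in Set.Ioc a b, (∫⁻ h in Set.Ioc (-H) H, ff δ V β (t, h)) ^ (n + 1) ≤ ENNReal.ofReal ((2 * V ^ (2 * β)) ^ (n + 1)) * ENNReal.ofReal (b - a) := by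
  have h1 : ∀ t : ℝ, (∫⁻ h in Set.Ioc (-H) H, ff δ V β (t, h)) ^ (n + 1) ≤ ENNReal.ofReal ((2 * V ^ (2 * β)) ^ (n + 1)) := by
    intro t
    rw [ENNReal.ofReal_pow (by positivity)]
    refine pow_le_pow_left' ?_ _
    have h2 : ∫⁻ h in Set.Ioc (-H) H, ff δ V β (t, h) ≤ ∫⁻ _h in Set.Ioc (-H) H, ENNReal.ofReal (V ^ (2 * β)) := by
      refine lintegral_mono fun h => ?_
      unfold ff
      exact ENNReal.ofReal_le_ofReal (Real.rpow_le_rpow (tz_nn (Zh_nn _ _ _)) (tz_leV hV) (by linarith))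
    refine h2.trans ?_
    rw [setLIntegral_const, Real.volume_Ioc, ← ENNReal.ofReal_mul (by positivity)]
    refine ENNReal.ofReal_le_ofReal ?_
    have h3 : H - -H ≤ 2 := by linarith
    have h4 : V ^ (2 * β) * (H - -H) ≤ V ^ (2 * β) * 2 := mul_le_mul_of_nonneg_left h3 (by positivity)
    linarith
  refine (lintegral_mono h1).trans ?_
  rw [setLIntegral_const, Real.volume_Ioc]

/-- lower bounds for the moments of moments on the critical line -/
theorem onl {β : ℝ} (hβ : 0 < β) (n : ℕ) : ∃ c C0 : ℝ, 0 < c ∧ 0 < C0 ∧ ∀ C : ℝ, C0 ≤ C → ∀ᶠ T : ℝ in atTop, ∀ H : ℝ,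
    C * Real.log (Real.log T) / Real.log T ≤ H → H ≤ 1 →
    c * Ax n β (C * Real.log (Real.log T) / Real.log T) H * T ≤ ∫ t in (0:ℝ)..T, LM β H t ^ (n + 1) := by
  obtain ⟨A, C0, D, T0, hC0, hD, hnl⟩ := nlm hβ n 0
  obtain ⟨F, C1, hF, hC1, htr⟩ := trm hβ n
  obtain ⟨K, hK⟩ : ∃ K : ℕ, 2 * β ≤ K := exists_nat_ge _
  obtain ⟨E, hE⟩ : ∃ E : ℕ, E = (A * K + 2) * (n + 1) + 1 := ⟨_, rfl⟩
  have hq : ∀ᶠ T : ℝ in atTop, 2 * C1 * D / F ≤ T ^ (1 / 4 : ℝ) := (tendsto_rpow_atTop (by norm_num)).eventually_ge_atTop _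
  refine ⟨F * D⁻¹ / 4, C0, by positivity, hC0, fun C hC => ?_⟩
  filter_upwards [eventually_ge_atTop T0, ev_ll C (1 / 32) (by norm_num), ev_edge E, eventually_ge_atTop 16, hq,
    Real.tendsto_log_atTop.eventually_ge_atTop (2 * D)] with T hT0 hll hedge hT16 hTC hLD H hH hH1
  obtain ⟨hT4, hL, h2⟩ := hnl T hT0
  obtain ⟨δ, hδ⟩ : ∃ δ : ℝ, δ = C * Real.log (Real.log T) / Real.log T := ⟨_, rfl⟩
  rw [← hδ] at hll hH ⊢
  have hT : 0 < T := by linarith
  have hll2 : 0 < Real.log (Real.log T) := Real.log_pos (by linarith)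
  have hδC : C0 * Real.log (Real.log T) / Real.log T ≤ δ := by
    rw [hδ]
    exact div_le_div_of_nonneg_right (mul_le_mul_of_nonneg_right hC hll2.le) (by linarith)
  obtain ⟨hδ0, h2δ, -, h3⟩ := h2 δ hδC (by linarith)
  have hH0 : 0 < H := by linarith
  obtain ⟨h4, -⟩ := h3 H hH hH1
  obtain ⟨L, hLdef⟩ : ∃ L : ℝ, L = Real.log T := ⟨_, rfl⟩
  rw [← hLdef] at hL h2δ h4 hedge hLD
  have hL0 : 0 < L := by linarith
  obtain ⟨V, hV⟩ : ∃ V : ℝ, V = L ^ A := ⟨_, rfl⟩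
  have hV0 : 0 < V := by rw [hV]; positivity
  rw [← hV] at h4
  obtain ⟨U, hU⟩ : ∃ U : ℝ, U = T ^ (1 / 4 : ℝ) := ⟨_, rfl⟩
  have hU0 : 0 < U := by rw [hU]; positivity
  rw [← hU] at hedge hTC
  have hLE : 1 ≤ L ^ (E + 2) := one_le_pow₀ (by linarith)
  have hUT : 2 * U ≤ T := hedge.trans (div_le_self hT.le hLE)
  have hA0 := Ax_pos (n := n) (β := β) hδ0 hH0
  -- lower bound for the order
  have hHL : L⁻¹ ^ (n + 1) ≤ Ax n β δ H := by
    refine le_trans (pow_le_pow_left₀ (by positivity) ?_ _) (Ax_ge hδ0 (by linarith) hH0 hH1)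
    refine le_trans ?_ hH
    rw [inv_le_comm₀ hL0 hδ0, ← one_div]
    refine le_trans ?_ h2δ
    exact div_le_div_of_nonneg_right (by norm_num) hδ0.le
  -- the edges
  obtain ⟨I, hI⟩ : ∃ I : ENNReal, I = ∫⁻ t in Set.Ioc U (T - U), (∫⁻ h in Set.Ioc (-H) H, ff δ V β (t, h)) ^ (n + 1) := ⟨_, rfl⟩
  have h5 : MT n V β δ H T ≤ I + ENNReal.ofReal ((2 * V ^ (2 * β)) ^ (n + 1) * (2 * U)) := by
    unfold MT
    have hs : Set.Ioc (0:ℝ) T = Set.Ioc U (T - U) ∪ (Set.Ioc 0 U ∪ Set.Ioc (T - U) T) := by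
      ext t
      simp only [Set.mem_Ioc, Set.mem_union]
      constructor
      · rintro ⟨a1, a2⟩
        by_cases a3 : t ≤ U
        · exact Or.inr (Or.inl ⟨a1, a3⟩)
        · push Not at a3
          by_cases a4 : t ≤ T - U
          · exact Or.inl ⟨a3, a4⟩
          · push Not at a4
            exact Or.inr (Or.inr ⟨a4, a2⟩)
      · rintro (⟨a1, a2⟩ | ⟨a1, a2⟩ | ⟨a1, a2⟩)
        · exact ⟨by linarith, by linarith⟩
        · exact ⟨by linarith, by linarith⟩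
        · exact ⟨by linarith, by linarith⟩
    rw [hs]
    refine (lintegral_union_le _ _ _).trans ?_
    rw [hI]
    refine add_le_add le_rfl ?_
    refine (lintegral_union_le _ _ _).trans ?_
    refine (add_le_add (edge_le hβ hV0.le hH1) (edge_le hβ hV0.le hH1)).trans (le_of_eq ?_)
    rw [sub_zero, show T - (T - U) = U by ring, ← ENNReal.ofReal_mul (by positivity), ← ENNReal.ofReal_add (by positivity) (by positivity)]
    congr 1
    ring
  have h6 : (2 * V ^ (2 * β)) ^ (n + 1) * (2 * U) ≤ D⁻¹ * Ax n β δ H * T / 2 := by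
    have a1 : V ^ (2 * β) ≤ L ^ (A * K) := by
      rw [hV, ← Real.rpow_natCast L A, ← Real.rpow_mul hL0.le, ← Real.rpow_natCast L (A * K)]
      refine Real.rpow_le_rpow_of_exponent_le (by linarith) ?_
      push_cast
      exact mul_le_mul_of_nonneg_left hK (Nat.cast_nonneg _)
    have a2 : 2 * V ^ (2 * β) ≤ L ^ (A * K + 1) := by
      rw [pow_succ]
      have : 0 ≤ L ^ (A * K) := by positivity
      nlinarith
    have a3 : (2 * V ^ (2 * β)) ^ (n + 1) ≤ L ^ ((A * K + 1) * (n + 1)) := by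
      rw [pow_mul]
      exact pow_le_pow_left₀ (by positivity) a2 _
    have a4 : L ^ ((A * K + 1) * (n + 1)) * (2 * U) ≤ L ^ ((A * K + 1) * (n + 1)) * (T / L ^ (E + 2)) := mul_le_mul_of_nonneg_left hedge (by positivity)
    have a5 : L ^ (E + 2) = L ^ ((A * K + 1) * (n + 1)) * (L ^ (n + 1) * (L * L ^ 2)) := by
      rw [hE]
      ring
    have a6 : L ^ ((A * K + 1) * (n + 1)) * (T / L ^ (E + 2)) = T * L⁻¹ ^ (n + 1) * (L * L ^ 2)⁻¹ := by
      rw [a5, inv_pow]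
      field_simp
    have a7 : (L * L ^ 2)⁻¹ ≤ D⁻¹ / 2 := by
      rw [show D⁻¹ / 2 = (2 * D)⁻¹ by rw [mul_inv]; ring]
      refine inv_anti₀ (by positivity) (hLD.trans ?_)
      exact le_mul_of_one_le_right hL0.le (one_le_pow₀ (by linarith))
    calc (2 * V ^ (2 * β)) ^ (n + 1) * (2 * U) ≤ L ^ ((A * K + 1) * (n + 1)) * (2 * U) := mul_le_mul_of_nonneg_right a3 (by positivity)
      _ ≤ T * L⁻¹ ^ (n + 1) * (L * L ^ 2)⁻¹ := by rw [← a6]; exact a4
      _ ≤ T * Ax n β δ H * (D⁻¹ / 2) := by gcongr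
      _ = _ := by ring
  have h7 : ENNReal.ofReal (D⁻¹ * Ax n β δ H * T / 2) ≤ I := by
    have b1 : ENNReal.ofReal (D⁻¹ * Ax n β δ H * T) ≤ I + ENNReal.ofReal (D⁻¹ * Ax n β δ H * T / 2) :=
      (h4.trans h5).trans (add_le_add le_rfl (ENNReal.ofReal_le_ofReal h6))
    have b2 := tsub_le_iff_right.mpr b1
    rwa [← ENNReal.ofReal_sub _ (by positivity), sub_half] at b2
  have h8 := htr T δ H V hT16 hδ0 hll hH0.le hH1
  rw [← hU, ← hI, ON_int hβ hH0.le hT.le] at h8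
  have h9 : ENNReal.ofReal (F * (D⁻¹ * Ax n β δ H * T / 2)) ≤ ENNReal.ofReal ((∫ t in (0:ℝ)..T, LM β H t ^ (n + 1)) + C1) := by
    have hJ : 0 ≤ ∫ t in (0:ℝ)..T, LM β H t ^ (n + 1) := intervalIntegral.integral_nonneg hT.le fun t _ => pow_nonneg (LM_nn hH0.le t) _
    rw [ENNReal.ofReal_mul hF.le, ENNReal.ofReal_add hJ hC1.le]
    exact (mul_le_mul_right h7 _).trans h8
  have hJ : 0 ≤ ∫ t in (0:ℝ)..T, LM β H t ^ (n + 1) := intervalIntegral.integral_nonneg hT.le fun t _ => pow_nonneg (LM_nn hH0.le t) _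
  have h10 := (ENNReal.ofReal_le_ofReal_iff (by linarith)).mp h9
  have h11 : C1 ≤ F * D⁻¹ / 4 * Ax n β δ H * T := by
    rw [div_le_iff₀ hF] at hTC
    have a1 : L⁻¹ ^ (n + 1) * T ≤ Ax n β δ H * T := mul_le_mul_of_nonneg_right hHL hT.le
    have a2 : T / L ^ (E + 2) ≤ L⁻¹ ^ (n + 1) * T := by
      rw [inv_pow, div_eq_mul_inv, mul_comm]
      refine mul_le_mul_of_nonneg_right (inv_anti₀ (by positivity) (pow_le_pow_right₀ (by linarith) ?_)) hT.le
      rw [hE]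
      nlinarith [Nat.zero_le (A * K * (n + 1))]
    have a3 : 2 * U ≤ Ax n β δ H * T := (hedge.trans a2).trans a1
    calc C1 = (2 * C1 * D) * D⁻¹ / 2 := by field_simp
      _ ≤ (U * F) * D⁻¹ / 2 := by gcongr
      _ = F * D⁻¹ / 4 * (2 * U) := by ring
      _ ≤ F * D⁻¹ / 4 * (Ax n β δ H * T) := mul_le_mul_of_nonneg_left a3 (by positivity)
      _ = _ := by ring
  have h12 : F * (D⁻¹ * Ax n β δ H * T / 2) = 2 * (F * D⁻¹ / 4 * Ax n β δ H * T) := by ring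
  rw [h12] at h10
  linarith

end

end Pool.Agent.X111.MO
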