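import Pool.Agent.X111.MO.Bd

set_option autoImplicit false
set_option linter.unusedSectionVars false

/-! The truncated local moments and the joint moments. -/

namespace Pool.Agent.X111.MO

open Finset MeasureTheory Filter Topology
open Pool.Agent.X110.RR (GS GS_meas)
open Pool.Agent.X111.MS (JI jm Mz)
open Pool.Agent.Y746.OA (sp)

noncomputable section

/-- the values -/
def Zh (δ h t : ℝ) : ℝ := ‖riemannZeta (sp δ t + (h : ℂ) * Complex.I)‖

lemma Zh_nn (δ h t : ℝ) : 0 ≤ Zh δ h t := norm_nonneg _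

lemma Zh_meas2 (δ : ℝ) : Measurable fun z : ℝ × ℝ => Zh δ z.2 z.1 := by
  unfold Zh
  have h1 : Continuous fun z : ℝ × ℝ => sp δ z.1 + (z.2 : ℂ) * Complex.I := by
    unfold sp
    fun_prop
  exact (Mz.comp h1.measurable).norm

lemma Zh_meas (δ h : ℝ) : Measurable fun t : ℝ => Zh δ h t := by
  unfold Zh
  have h1 : Continuous fun t : ℝ => sp δ t + (h : ℂ) * Complex.I := by
    unfold sp
    fun_prop
  exact (Mz.comp h1.measurable).norm

lemma Zh_measH (δ t : ℝ) : Measurable fun h : ℝ => Zh δ h t := by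
  unfold Zh
  have h1 : Continuous fun h : ℝ => sp δ t + (h : ℂ) * Complex.I := by fun_prop
  exact (Mz.comp h1.measurable).norm

/-- the truncation -/
def tz (V z : ℝ) : ℝ := if V⁻¹ < z ∧ z < V then z else 0

lemma tz_nn {V z : ℝ} (hz : 0 ≤ z) : 0 ≤ tz V z := by
  unfold tz
  split_ifs <;> simp [hz]

lemma tz_le {V z : ℝ} (hz : 0 ≤ z) : tz V z ≤ z := by
  unfold tz
  split_ifs
  · exact le_rfl
  · exact hz

lemma tz_leV {V z : ℝ} (hV : 0 ≤ V) : tz V z ≤ V := by
  unfold tz
  split_ifs with h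
  · exact h.2.le
  · exact hV

lemma tz_meas (V : ℝ) : Measurable (tz V) := by
  unfold tz
  refine Measurable.ite ?_ measurable_id measurable_const
  exact (measurableSet_lt measurable_const measurable_id).inter (measurableSet_lt measurable_id measurable_const)

/-- the truncated powers -/
def ff (δ V β : ℝ) (z : ℝ × ℝ) : ENNReal := ENNReal.ofReal (tz V (Zh δ z.2 z.1) ^ (2 * β))

lemma ff_meas2 (δ V β : ℝ) : Measurable (ff δ V β) := by
  unfold ff
  exact (((tz_meas V).comp (Zh_meas2 δ)).pow_const _).ennreal_ofReal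

lemma ff_meas (δ V β t : ℝ) : Measurable fun h : ℝ => ff δ V β (t, h) := by
  unfold ff
  exact (((tz_meas V).comp (Zh_measH δ t)).pow_const _).ennreal_ofReal

lemma GS_m {q : ℕ} (δ V : ℝ) (h : Fin q → ℝ) : MeasurableSet (GS δ V (wh h)) := by
  have h1 : GS δ V (wh h) = ⋂ j, {t | V⁻¹ < Zh δ (h j) t ∧ Zh δ (h j) t < V} := by
    ext t
    simp only [Set.mem_iInter, Set.mem_ofPred_eq]
    rfl
  rw [h1]
  refine MeasurableSet.iInter fun j => ?_
  have hc : Measurable fun t => Zh δ (h j) t := Zh_meas δ (h j)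
  exact (measurableSet_lt measurable_const hc).inter (measurableSet_lt hc measurable_const)

lemma prod_ff {q : ℕ} {δ V β : ℝ} (hβ : 0 < β) (h : Fin q → ℝ) (t : ℝ) :
    ∏ j, ff δ V β (t, h j) = (GS δ V (wh h)).indicator (fun t => ENNReal.ofReal (∏ j, ‖riemannZeta (sp δ t + wh h j)‖ ^ (2 * β))) t := by
  by_cases ht : t ∈ GS δ V (wh h)
  · rw [Set.indicator_of_mem ht, ENNReal.ofReal_prod_of_nonneg fun _ _ => Real.rpow_nonneg (norm_nonneg _) _]
    refine Finset.prod_congr rfl fun j _ => ?_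
    unfold ff tz
    have h1 : V⁻¹ < Zh δ (h j) t ∧ Zh δ (h j) t < V := ht j
    rw [if_pos h1]
    rfl
  · rw [Set.indicator_of_notMem ht]
    have h1 : ∃ j, ¬ (V⁻¹ < Zh δ (h j) t ∧ Zh δ (h j) t < V) := by
      by_contra hcon
      push Not at hcon
      exact ht fun j => hcon j
    obtain ⟨j, hj⟩ := h1
    refine Finset.prod_eq_zero (Finset.mem_univ j) ?_
    unfold ff tz
    rw [if_neg hj, Real.zero_rpow (by linarith), ENNReal.ofReal_zero]

lemma JI_lint {q : ℕ} {δ V β T : ℝ} (hβ : 0 < β) (h : Fin q → ℝ) :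
    ∫⁻ t in Set.Ioc 0 T, ∏ j, ff δ V β (t, h j) = ENNReal.ofReal (JI δ V T (wh h) fun _ => β) := by
  simp only [prod_ff hβ]
  rw [setLIntegral_indicator (GS_m δ V h), Set.inter_comm]
  unfold JI
  have hm : Measurable fun t : ℝ => ∏ j, ‖riemannZeta (sp δ t + wh h j)‖ ^ (2 * β) := by
    refine Finset.measurable_fun_prod _ fun j _ => ?_
    have hc : Measurable fun t => Zh δ (h j) t := Zh_meas δ (h j)
    exact hc.pow_const _
  have hG : MeasurableSet (Set.Ioc 0 T ∩ GS δ V (wh h)) := measurableSet_Ioc.inter (GS_m δ V h)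
  have hint : IntegrableOn (fun t : ℝ => ∏ j, ‖riemannZeta (sp δ t + wh h j)‖ ^ (2 * β)) (Set.Ioc 0 T ∩ GS δ V (wh h)) := by
    refine Measure.integrableOn_of_bounded (M := (V ^ (2 * β)) ^ q) ?_ hm.aestronglyMeasurable ?_
    · exact (measure_lt_top_of_subset Set.inter_subset_left (by rw [Real.volume_Ioc]; exact ENNReal.ofReal_ne_top)).ne
    · filter_upwards [ae_restrict_mem hG] with t ht
      rw [Real.norm_of_nonneg (Finset.prod_nonneg fun j _ => Real.rpow_nonneg (norm_nonneg _) _)]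
      calc ∏ j, ‖riemannZeta (sp δ t + wh h j)‖ ^ (2 * β) ≤ ∏ _j : Fin q, V ^ (2 * β) :=
            Finset.prod_le_prod (fun j _ => Real.rpow_nonneg (norm_nonneg _) _) fun j _ =>
              Real.rpow_le_rpow (norm_nonneg _) (ht.2 j).2.le (by linarith)
        _ = _ := by simp
  rw [ofReal_integral_eq_lintegral_ofReal hint (Eventually.of_forall fun t => Finset.prod_nonneg fun j _ => Real.rpow_nonneg (norm_nonneg _) _)]

/-- the moments of the truncated local moments -/
theorem ton {q : ℕ} {δ V β T H : ℝ} (hβ : 0 < β) :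
    ∫⁻ t in Set.Ioc 0 T, (∫⁻ h in Set.Ioc (-H) H, ff δ V β (t, h)) ^ q = ∫⁻ h, ENNReal.ofReal (JI δ V T (wh h) fun _ => β) ∂(mp q H) := by
  have h1 : ∀ t : ℝ, (∫⁻ h in Set.Ioc (-H) H, ff δ V β (t, h)) ^ q = ∫⁻ h, ∏ j, ff δ V β (t, h j) ∂(mp q H) := fun t =>
    (lint_pi (mw H) (ff_meas δ V β t) q).symm
  simp only [h1]
  have hm : Measurable fun z : ℝ × (Fin q → ℝ) => ∏ j, ff δ V β (z.1, z.2 j) := by
    refine Finset.measurable_fun_prod _ fun j _ => ?_
    have hj : Measurable fun z : ℝ × (Fin q → ℝ) => ((z.1, z.2 j) : ℝ × ℝ) :=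
      measurable_fst.prodMk ((measurable_pi_apply j).comp measurable_snd)
    exact (ff_meas2 δ V β).comp hj
  rw [lintegral_lintegral_swap hm.aemeasurable]
  exact lintegral_congr fun h => JI_lint hβ h

end

end Pool.Agent.X111.MO
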