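import Pool.Agent.X111.MO.Nlm

set_option autoImplicit false
set_option linter.unusedSectionVars false

/-! Averages over the half plane, local moments. -/

namespace Pool.Agent.X111.MO

open Finset MeasureTheory Filter Topology
open Pool.Agent.W184 (zn zn_nonneg zn_cont zn_le' KP KP_cont KP_nonneg KP_le KP_int)
open Pool.Agent.X111.MS (tr_set hp_one)

noncomputable section

/-- Jensen's inequality for a kernel of mass at most one -/
lemma jens {K g : ℝ → ENNReal} (hK : Measurable K) (hg : Measurable g) (hK1 : ∫⁻ w, K w ≤ 1) (n : ℕ) :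
    (∫⁻ w, K w * g w) ^ (n + 1) ≤ ∫⁻ w, K w * g w ^ (n + 1) := by
  obtain ⟨p, hp⟩ : ∃ p : ℝ, p = 1 / ((n:ℝ) + 1) := ⟨_, rfl⟩
  have hn : (0:ℝ) < (n:ℝ) + 1 := by positivity
  have hp0 : 0 < p := by rw [hp]; positivity
  have hp1 : p ≤ 1 := by rw [hp, div_le_one hn]; linarith [Nat.cast_nonneg (α := ℝ) n]
  have hpn : p * ((n:ℝ) + 1) = 1 := by rw [hp]; field_simp
  have h1 := ENNReal.lintegral_mul_norm_pow_le (μ := (volume : Measure ℝ)) (f := fun w => K w * g w ^ (n + 1)) (g := K) (p := p) (q := 1 - p)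
    (hK.mul (hg.pow_const _)).aemeasurable hK.aemeasurable hp0.le (by linarith) (by ring)
  have e1 : ∀ w, (K w * g w ^ (n + 1)) ^ p * K w ^ (1 - p) = K w * g w := by
    intro w
    rw [ENNReal.mul_rpow_of_nonneg _ _ hp0.le, ← ENNReal.rpow_natCast, ← ENNReal.rpow_mul]
    have e2 : ((n + 1 : ℕ) : ℝ) * p = 1 := by push_cast; linarith
    rw [e2, ENNReal.rpow_one, mul_right_comm, ← ENNReal.rpow_add_of_nonneg _ _ hp0.le (by linarith)]
    rw [show p + (1 - p) = 1 by ring, ENNReal.rpow_one]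
  simp only [e1] at h1
  have h2 : ∫⁻ w, K w * g w ≤ (∫⁻ w, K w * g w ^ (n + 1)) ^ p := by
    refine h1.trans ?_
    calc (∫⁻ w, K w * g w ^ (n + 1)) ^ p * (∫⁻ w, K w) ^ (1 - p) ≤ (∫⁻ w, K w * g w ^ (n + 1)) ^ p * 1 := by
          gcongr
          exact ENNReal.rpow_le_one hK1 (by linarith)
      _ = _ := mul_one _
  calc (∫⁻ w, K w * g w) ^ (n + 1) ≤ ((∫⁻ w, K w * g w ^ (n + 1)) ^ p) ^ (n + 1) := by gcongr
    _ = _ := by
      rw [← ENNReal.rpow_natCast, ← ENNReal.rpow_mul]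
      have e2 : p * ((n + 1 : ℕ) : ℝ) = 1 := by push_cast; linarith
      rw [e2, ENNReal.rpow_one]

/-- averages of translates -/
lemma avgL {K G φ : ℝ → ENNReal} (hK : Measurable K) (hG : Measurable G) (hφ : Measurable φ) {a b U : ℝ} {D : ENNReal}
    (hGB : ∀ t ∈ Set.Ioc a b, ∀ w, G (t + w) ≤ D * φ w) :
    ∫⁻ t in Set.Ioc a b, ∫⁻ w, K w * G (t + w) ≤ (∫⁻ w, K w) * (∫⁻ x in Set.Ioc (a - U) (b + U), G x) +
      ENNReal.ofReal (b - a) * D * ∫⁻ w in {w : ℝ | U < |w|}, K w * φ w := by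
  have hm : Measurable fun z : ℝ × ℝ => K z.2 * G (z.1 + z.2) := (hK.comp measurable_snd).mul (hG.comp (measurable_fst.add measurable_snd))
  rw [lintegral_lintegral_swap hm.aemeasurable]
  have hms : MeasurableSet {w : ℝ | U < |w|} := measurableSet_lt measurable_const measurable_abs
  have h1 : ∀ w, ∫⁻ t in Set.Ioc a b, K w * G (t + w) ≤ K w * (∫⁻ x in Set.Ioc (a - U) (b + U), G x) +
      ({w : ℝ | U < |w|}).indicator (fun w => ENNReal.ofReal (b - a) * D * (K w * φ w)) w := by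
    intro w
    have hmw : Measurable fun t : ℝ => G (t + w) := hG.comp (measurable_id.add measurable_const)
    rw [lintegral_const_mul _ hmw]
    by_cases hw : U < |w|
    · rw [Set.indicator_of_mem (show w ∈ {w : ℝ | U < |w|} from hw)]
      refine le_add_left ?_
      have h2 : ∫⁻ t in Set.Ioc a b, G (t + w) ≤ ∫⁻ _t in Set.Ioc a b, D * φ w := setLIntegral_mono' measurableSet_Ioc fun t ht => hGB t ht w
      rw [setLIntegral_const, Real.volume_Ioc] at h2
      calc K w * ∫⁻ t in Set.Ioc a b, G (t + w) ≤ K w * (D * φ w * ENNReal.ofReal (b - a)) := mul_le_mul_right h2 _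
        _ = _ := by ring
    · rw [Set.indicator_of_notMem (show w ∉ {w : ℝ | U < |w|} from hw), add_zero]
      refine mul_le_mul_right ?_ _
      have e1 : ∀ t : ℝ, G (t + w) = G (w + t) := fun t => by rw [add_comm]
      rw [lintegral_congr e1, tr_set G a b w]
      push Not at hw
      have hw' := abs_le.mp hw
      exact lintegral_mono_set (Set.Ioc_subset_Ioc (by linarith [hw'.1]) (by linarith [hw'.2]))
  refine (lintegral_mono h1).trans (le_of_eq ?_)
  have hKφ : Measurable fun w => K w * φ w := hK.mul hφ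
  rw [lintegral_add_left (hK.mul_const _), lintegral_mul_const _ hK, lintegral_indicator hms, lintegral_const_mul _ hKφ]

/-- the local moment on the critical line -/
def ON (p H s : ℝ) : ENNReal := ∫⁻ h in Set.Ioc (-H) H, ENNReal.ofReal (zn (1 / 2) (s + h) ^ p)

lemma zp_meas (σ p : ℝ) : Measurable fun t : ℝ => zn σ t ^ p := by
  have h1 : Measurable (zn σ) := by
    unfold zn
    have h2 : Continuous fun t : ℝ => (σ : ℂ) + t * Complex.I := by fun_prop
    exact (Pool.Agent.X111.MS.Mz.comp h2.measurable).norm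
  exact h1.pow_const p

lemma ON_meas (p H : ℝ) : Measurable (ON p H) := by
  unfold ON
  have h1 : Measurable fun z : ℝ × ℝ => ENNReal.ofReal (zn (1 / 2) (z.1 + z.2) ^ p) :=
    ((zp_meas (1 / 2) p).comp (measurable_fst.add measurable_snd)).ennreal_ofReal
  exact h1.lintegral_prod_right'

lemma Zh_zn (δ h t : ℝ) : Zh δ h t = zn (1 / 2 + δ) (t + h) := by
  unfold Zh zn Pool.Agent.Y746.OA.sp
  congr 2
  push_cast
  ring

/-- the kernel -/
def KK (δ e w : ℝ) : ENNReal := ENNReal.ofReal (KP δ w * (1 + w ^ 2) ^ (-e))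

lemma KK_meas (δ e : ℝ) : Measurable (KK δ e) := by
  unfold KK
  have h1 : Measurable (KP δ) := by
    unfold KP
    fun_prop
  have h2 : Measurable fun w : ℝ => (1 + w ^ 2) ^ (-e) := by fun_prop
  exact (h1.mul h2).ennreal_ofReal

/-- the pointwise inequality for the local moments -/
lemma loc_pt {p δ V H F : ℝ} {m : ℕ} (hp : 0 < p) (hm : 1 ≤ m) (h0 : 0 < δ) (h1 : δ ≤ 1 / 8) (hF : 0 ≤ F)
    (hFle : F ≤ ((1 - 8 * δ) / (1 + δ) ^ (2 * m)) ^ p) (t : ℝ) :
    ENNReal.ofReal F * ∫⁻ h in Set.Ioc (-H) H, ff δ V (p / 2) (t, h) ≤ ∫⁻ w, KK δ (m * p) w * ON p H (t + w) := by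
  have hb : ∀ w : ℝ, 0 ≤ 1 + w ^ 2 := fun w => by positivity
  have hKc : Measurable fun w : ℝ => KK δ (m * p) w := KK_meas _ _
  have h2 : ∀ h : ℝ, ENNReal.ofReal F * ff δ V (p / 2) (t, h) ≤ ∫⁻ w, KK δ (m * p) w * ENNReal.ofReal (zn (1 / 2) (t + w + h) ^ p) := by
    intro h
    have h3 := hp_one hp hm h0 h1 (t + h)
    have h4 : ENNReal.ofReal F * ff δ V (p / 2) (t, h) ≤ ENNReal.ofReal (((1 - 8 * δ) / (1 + δ) ^ (2 * m)) ^ p * zn (1 / 2 + δ) (t + h) ^ p) := by
      unfold ff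
      rw [← ENNReal.ofReal_mul hF, show 2 * (p / 2) = p by ring]
      refine ENNReal.ofReal_le_ofReal (mul_le_mul hFle ?_ (Real.rpow_nonneg (tz_nn (Zh_nn _ _ _)) _) (hF.trans hFle))
      rw [← Zh_zn]
      exact Real.rpow_le_rpow (tz_nn (Zh_nn _ _ _)) (tz_le (Zh_nn _ _ _)) hp.le
    refine h4.trans ((ENNReal.ofReal_le_ofReal h3).trans ((Pool.Agent.X111.MS.ofReal_int_le fun w => ?_).trans (le_of_eq (lintegral_congr fun w => ?_))))
    · exact mul_nonneg (mul_nonneg (KP_nonneg h0 w) (Real.rpow_nonneg (hb w) _)) (Real.rpow_nonneg (zn_nonneg _ _) _)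
    · rw [ENNReal.ofReal_mul (mul_nonneg (KP_nonneg h0 w) (Real.rpow_nonneg (hb w) _))]
      unfold KK
      congr 4
      ring
  have hmf : Measurable fun h : ℝ => ff δ V (p / 2) (t, h) := ff_meas δ V (p / 2) t
  rw [← lintegral_const_mul _ hmf]
  refine (lintegral_mono h2).trans ?_
  have hz : Measurable fun z : ℝ × ℝ => ENNReal.ofReal (zn (1 / 2) (t + z.2 + z.1) ^ p) := by
    have h5 : Measurable fun z : ℝ × ℝ => t + z.2 + z.1 := (measurable_const.add measurable_snd).add measurable_fst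
    exact ((zp_meas (1 / 2) p).comp h5).ennreal_ofReal
  have hm2 : Measurable fun z : ℝ × ℝ => KK δ (m * p) z.2 * ENNReal.ofReal (zn (1 / 2) (t + z.2 + z.1) ^ p) := (hKc.comp measurable_snd).mul hz
  rw [lintegral_lintegral_swap hm2.aemeasurable]
  refine le_of_eq (lintegral_congr fun w => ?_)
  have hm3 : Measurable fun h : ℝ => ENNReal.ofReal (zn (1 / 2) (t + w + h) ^ p) := by
    have h5 : Measurable fun h : ℝ => t + w + h := measurable_const.add measurable_id
    exact ((zp_meas (1 / 2) p).comp h5).ennreal_ofReal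
  rw [lintegral_const_mul _ hm3]
  rfl

end

end Pool.Agent.X111.MO
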