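import Pool.Agent.X111.MO.Unt

set_option autoImplicit false
set_option linter.unusedSectionVars false

/-! Moments of moments next to the line without truncation: conclusion. -/

namespace Pool.Agent.X111.MO

open Finset MeasureTheory Filter Topology
open Pool.Agent.W184 (zn zn_nonneg zn_cont zn_le' zn_neg)
open Pool.Agent.X111.MS (ev_ll ofReal_int_le)

noncomputable section

lemma Ax_geL {n : ℕ} {β δ H L : ℝ} (hL : 1 ≤ L) (h2δ : 2 / δ ≤ L) (hδ : 0 < δ) (hH : δ ≤ H) (hH1 : H ≤ 1) : L⁻¹ ^ (n + 1) ≤ Ax n β δ H := by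
  have hL0 : 0 < L := by linarith
  refine le_trans (pow_le_pow_left₀ (by positivity) ?_ _) (Ax_ge hδ (hH.trans hH1) (hδ.trans_le hH) hH1)
  refine le_trans ?_ hH
  rw [inv_le_comm₀ hL0 hδ, ← one_div]
  refine le_trans ?_ h2δ
  exact div_le_div_of_nonneg_right (by norm_num) hδ.le

/-- moments of moments next to the line -/
theorem nlu {β : ℝ} (hβ : 0 < β) (n : ℕ) : ∃ C D : ℝ, 0 < C ∧ 0 < D ∧ ∀ᶠ T : ℝ in atTop, ∀ δ : ℝ,
    C * Real.log (Real.log T) / Real.log T ≤ δ → δ ≤ 1 / 16 → ∀ H : ℝ, δ ≤ H → H ≤ 1 →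
    ENNReal.ofReal (D⁻¹ * Ax n β δ H * T) ≤ MU n β δ H T ∧
      (((n:ℝ) + 1) * β ^ 2 ≠ 1 → ((n:ℝ) + 1) * β < 2 → MU n β δ H T ≤ ENNReal.ofReal (D * Ax n β δ H * T)) := by
  obtain ⟨p, hp⟩ : ∃ p : ℝ, p = ((n:ℝ) + 1) * β / 2 := ⟨_, rfl⟩
  have hp0 : 0 < p := by rw [hp]; positivity
  obtain ⟨B, hB⟩ : ∃ B : ℕ, p < 1 → (n:ℝ) + 5 ≤ B * (1 - p) := by
    obtain ⟨B, hB⟩ := exists_nat_ge (((n:ℝ) + 5) / (1 - p))
    exact ⟨B, fun h => by rwa [div_le_iff₀ (by linarith)] at hB⟩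
  obtain ⟨A, C0, D0, T0, hC0, hD0, hnl⟩ := nlm hβ n B
  obtain ⟨lam, C4, hlam, hC4, h4⟩ := four
  obtain ⟨D, hD⟩ : ∃ D : ℝ, D = max D0 (2 ^ (n + 1) * (D0 + 2 ^ (n + 1) * C4 ^ p)) := ⟨_, rfl⟩
  have hDD : D0 ≤ D := by rw [hD]; exact le_max_left _ _
  have hD2 : 2 ^ (n + 1) * (D0 + 2 ^ (n + 1) * C4 ^ p) ≤ D := by rw [hD]; exact le_max_right _ _
  refine ⟨max C0 lam, D, lt_max_of_lt_left hC0, by linarith, ?_⟩
  filter_upwards [eventually_ge_atTop T0, h4] with T hT0 h4T δ hδ hδ1 H hH hH1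
  obtain ⟨hT4, hL, h2⟩ := hnl T hT0
  have hll : 1 ≤ Real.log (Real.log T) := by
    have h5 := Real.log_le_log (Real.exp_pos 1) (show Real.exp 1 ≤ Real.log T by linarith [Real.exp_one_lt_d9])
    rwa [Real.log_exp] at h5
  have hL0 : 0 < Real.log T := by linarith
  have hδC : C0 * Real.log (Real.log T) / Real.log T ≤ δ :=
    (div_le_div_of_nonneg_right (mul_le_mul_of_nonneg_right (le_max_left _ _) (by linarith)) hL0.le).trans hδ
  have hδl : lam / Real.log T ≤ δ := by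
    refine le_trans (div_le_div_of_nonneg_right ?_ hL0.le) hδ
    calc lam = lam * 1 := (mul_one _).symm
      _ ≤ max C0 lam * Real.log (Real.log T) := mul_le_mul (le_max_right _ _) hll zero_le_one (by positivity)
  obtain ⟨hδ0, h2δ, hbad, h3⟩ := h2 δ hδC hδ1
  obtain ⟨h5, h6⟩ := h3 H hH hH1
  have hT : 0 < T := by linarith
  have hH0 : 0 < H := by linarith
  have hA0 := Ax_pos (n := n) (β := β) hδ0 hH0
  constructor
  · refine le_trans (ENNReal.ofReal_le_ofReal ?_) (h5.trans (MT_le hβ))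
    gcongr
  · intro hne hlt
    have hp1 : p < 1 := by rw [hp]; linarith
    have hBp := hB hp1
    have h7 := h6 hne
    obtain ⟨V, hV⟩ : ∃ V : ℝ, V = Real.log T ^ A := ⟨_, rfl⟩
    rw [← hV] at h7 hbad
    have hX : ∀ h ∈ Set.Ioc (-H) H, ∫⁻ t in Set.Ioc 0 T, bb δ V β (t, h) ^ (n + 1) ≤ ENNReal.ofReal (C4 ^ p * (Ax n β δ H * T)) := by
      intro h hh
      have hh1 : |h| ≤ 1 := (abs_le.mpr ⟨hh.1.le, hh.2⟩).trans hH1
      have h8 := bad_h (n := n) (V := V) (p := p) hβ hp hp1 (M := C4 * T * Real.log T ^ 4) (X := T / Real.log T ^ B) (by positivity) (by positivity)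
        (h4T δ hδl hδ1 h hh1) (hbad h hh1)
      refine h8.trans (ENNReal.ofReal_le_ofReal ?_)
      have e1 : (C4 * T * Real.log T ^ 4) ^ p * (T / Real.log T ^ B) ^ (1 - p) = C4 ^ p * (Real.log T ^ (4 * p - B * (1 - p)) * T) := by
        rw [Real.mul_rpow (by positivity) (by positivity), Real.mul_rpow hC4.le hT.le, Real.div_rpow hT.le (by positivity), ← Real.rpow_natCast _ 4,
          ← Real.rpow_natCast _ B, ← Real.rpow_mul hL0.le, ← Real.rpow_mul hL0.le, Real.rpow_sub hL0]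
        have e2 : T ^ p * T ^ (1 - p) = T := by
          rw [← Real.rpow_add hT, show p + (1 - p) = 1 by ring, Real.rpow_one]
        calc C4 ^ p * T ^ p * Real.log T ^ (((4:ℕ):ℝ) * p) * (T ^ (1 - p) / Real.log T ^ ((B:ℝ) * (1 - p))) =
            C4 ^ p * (Real.log T ^ (((4:ℕ):ℝ) * p) / Real.log T ^ ((B:ℝ) * (1 - p)) * (T ^ p * T ^ (1 - p))) := by ring
          _ = _ := by rw [e2]; norm_num
      rw [e1]
      refine mul_le_mul_of_nonneg_left (mul_le_mul_of_nonneg_right ?_ hT.le) (by positivity)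
      refine le_trans ?_ (Ax_geL (n := n) (β := β) (L := Real.log T) (by linarith) h2δ hδ0 hH hH1)
      rw [inv_pow, ← Real.rpow_natCast, ← Real.rpow_neg hL0.le]
      refine Real.rpow_le_rpow_of_exponent_le (by linarith) ?_
      push_cast
      linarith
    have h9 := bad_le (n := n) hH1 hX
    unfold MU
    have e3 : ∀ t : ℝ, (∫⁻ h in Set.Ioc (-H) H, fu δ β (t, h)) ^ (n + 1) ≤
        2 ^ (n + 1) * ((∫⁻ h in Set.Ioc (-H) H, ff δ V β (t, h)) ^ (n + 1) + (∫⁻ h in Set.Ioc (-H) H, bb δ V β (t, h)) ^ (n + 1)) := by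
      intro t
      have e4 : ∫⁻ h in Set.Ioc (-H) H, fu δ β (t, h) = (∫⁻ h in Set.Ioc (-H) H, ff δ V β (t, h)) + ∫⁻ h in Set.Ioc (-H) H, bb δ V β (t, h) := by
        rw [← lintegral_add_left (ff_meas δ V β t)]
        exact lintegral_congr fun h => fu_eq hβ _
      rw [e4]
      exact two_pow_max _ _ _
    refine (lintegral_mono e3).trans ?_
    have hm1 : Measurable fun t : ℝ => (∫⁻ h in Set.Ioc (-H) H, ff δ V β (t, h)) ^ (n + 1) := by
      have h10 : Measurable fun t : ℝ => ∫⁻ h in Set.Ioc (-H) H, ff δ V β (t, h) := (ff_meas2 δ V β).lintegral_prod_right'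
      exact h10.pow_const _
    have hm2 : Measurable fun t : ℝ => (∫⁻ h in Set.Ioc (-H) H, bb δ V β (t, h)) ^ (n + 1) := by
      have h10 : Measurable fun t : ℝ => ∫⁻ h in Set.Ioc (-H) H, bb δ V β (t, h) := (bb_meas2 δ V β).lintegral_prod_right'
      exact h10.pow_const _
    have hm12 : Measurable fun t : ℝ => (∫⁻ h in Set.Ioc (-H) H, ff δ V β (t, h)) ^ (n + 1) + (∫⁻ h in Set.Ioc (-H) H, bb δ V β (t, h)) ^ (n + 1) := hm1.add hm2
    rw [lintegral_const_mul _ hm12, lintegral_add_left hm1]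
    have hAT : 0 ≤ Ax n β δ H * T := by positivity
    calc (2:ENNReal) ^ (n + 1) * ((∫⁻ t in Set.Ioc 0 T, (∫⁻ h in Set.Ioc (-H) H, ff δ V β (t, h)) ^ (n + 1)) +
          ∫⁻ t in Set.Ioc 0 T, (∫⁻ h in Set.Ioc (-H) H, bb δ V β (t, h)) ^ (n + 1)) ≤
        2 ^ (n + 1) * (ENNReal.ofReal (D0 * Ax n β δ H * T) + 2 ^ (n + 1) * ENNReal.ofReal (C4 ^ p * (Ax n β δ H * T))) :=
          mul_le_mul_right (add_le_add h7 h9) _
      _ = ENNReal.ofReal (2 ^ (n + 1) * (D0 + 2 ^ (n + 1) * C4 ^ p) * (Ax n β δ H * T)) := by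
          have e5 : (2:ENNReal) ^ (n + 1) = ENNReal.ofReal (2 ^ (n + 1)) := by
            rw [ENNReal.ofReal_pow (by norm_num), ENNReal.ofReal_ofNat]
          rw [e5, ← ENNReal.ofReal_mul (by positivity), ← ENNReal.ofReal_add (by positivity) (by positivity), ← ENNReal.ofReal_mul (by positivity)]
          congr 1
          ring
      _ ≤ _ := by
          refine ENNReal.ofReal_le_ofReal ?_
          rw [mul_assoc D]
          exact mul_le_mul_of_nonneg_right hD2 hAT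

/-- the local moments -/
def LZ (σ β H s : ℝ) : ℝ := ∫ h in (-H)..H, zn σ (s + h) ^ (2 * β)

lemma LZ_cont {σ β : ℝ} (hσ : σ < 1) (hβ : 0 < β) (H : ℝ) : Continuous (LZ σ β H) := by
  unfold LZ
  refine intervalIntegral.continuous_parametric_intervalIntegral_of_continuous' ?_ _ _
  have h1 : Continuous fun t : ℝ => zn σ t ^ (2 * β) := (zn_cont hσ).rpow_const fun _ => Or.inr (by linarith)
  exact h1.comp (continuous_fst.add continuous_snd)

lemma LZ_nn {σ β H : ℝ} (hH : 0 ≤ H) (s : ℝ) : 0 ≤ LZ σ β H s :=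
  intervalIntegral.integral_nonneg (by linarith) fun h _ => Real.rpow_nonneg (zn_nonneg _ _) _

lemma MU_int {β H T δ : ℝ} (hδ : δ ≤ 1 / 16) (hβ : 0 < β) (hH : 0 ≤ H) (hT : 0 ≤ T) (n : ℕ) :
    MU n β δ H T = ENNReal.ofReal (∫ t in (0:ℝ)..T, LZ (1 / 2 + δ) β H t ^ (n + 1)) := by
  have hσ : 1 / 2 + δ < 1 := by linarith
  have hc : Continuous fun t : ℝ => LZ (1 / 2 + δ) β H t ^ (n + 1) := (LZ_cont hσ hβ H).pow _
  unfold MU
  rw [intervalIntegral.integral_of_le hT, ofReal_integral_eq_lintegral_ofReal (hc.integrableOn_Icc.mono_set Set.Ioc_subset_Icc_self)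
    (Eventually.of_forall fun t => pow_nonneg (LZ_nn hH t) _)]
  refine lintegral_congr fun t => ?_
  rw [ENNReal.ofReal_pow (LZ_nn hH t)]
  congr 1
  unfold LZ
  have h1 : Continuous fun t : ℝ => zn (1 / 2 + δ) t ^ (2 * β) := (zn_cont hσ).rpow_const fun _ => Or.inr (by linarith)
  have hc2 : Continuous fun h : ℝ => zn (1 / 2 + δ) (t + h) ^ (2 * β) := h1.comp (continuous_const.add continuous_id)
  rw [intervalIntegral.integral_of_le (by linarith), ofReal_integral_eq_lintegral_ofReal (hc2.integrableOn_Icc.mono_set Set.Ioc_subset_Icc_self)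
    (Eventually.of_forall fun h => Real.rpow_nonneg (zn_nonneg _ _) _)]
  refine lintegral_congr fun h => ?_
  unfold fu
  rw [Zh_zn]

/-- moments of moments next to the line, real integrals -/
theorem nlr {β : ℝ} (hβ : 0 < β) (n : ℕ) : ∃ c C D : ℝ, 0 < c ∧ 0 < C ∧ 0 < D ∧ ∀ᶠ T : ℝ in atTop, ∀ δ : ℝ,
    C * Real.log (Real.log T) / Real.log T ≤ δ → δ ≤ 1 / 16 → ∀ H : ℝ, δ ≤ H → H ≤ 1 →
    c * Ax n β δ H * T ≤ ∫ t in (0:ℝ)..T, LZ (1 / 2 + δ) β H t ^ (n + 1) ∧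
      (((n:ℝ) + 1) * β ^ 2 ≠ 1 → ((n:ℝ) + 1) * β < 2 → ∫ t in (0:ℝ)..T, LZ (1 / 2 + δ) β H t ^ (n + 1) ≤ D * Ax n β δ H * T) := by
  obtain ⟨C, D, hC, hD, h⟩ := nlu hβ n
  refine ⟨D⁻¹, C, D, by positivity, hC, hD, ?_⟩
  filter_upwards [h, Pool.Agent.X111.MS.ev_ll C (1 / 16) (by norm_num), eventually_gt_atTop (Real.exp 3)] with T hT _ hTe δ hδ hδ1 H hH hH1
  have hT0 : 0 < T := (Real.exp_pos _).trans hTe
  have hL : 3 < Real.log T := by
    have := Real.log_lt_log (Real.exp_pos _) hTe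
    rwa [Real.log_exp] at this
  have hll : 0 < Real.log (Real.log T) := Real.log_pos (by linarith)
  have hδ0 : 0 < δ := lt_of_lt_of_le (by positivity) hδ
  have hH0 : 0 < H := by linarith
  have hA0 := Ax_pos (n := n) (β := β) hδ0 hH0
  obtain ⟨h1, h2⟩ := hT δ hδ hδ1 H hH hH1
  rw [MU_int hδ1 hβ hH0.le hT0.le] at h1 h2
  have hJ : 0 ≤ ∫ t in (0:ℝ)..T, LZ (1 / 2 + δ) β H t ^ (n + 1) := intervalIntegral.integral_nonneg hT0.le fun t _ => pow_nonneg (LZ_nn hH0.le t) _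
  exact ⟨(ENNReal.ofReal_le_ofReal_iff hJ).mp h1, fun a b => (ENNReal.ofReal_le_ofReal_iff (by positivity)).mp (h2 a b)⟩

end

end Pool.Agent.X111.MO
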